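import Pool.Agent.P8H49.HamStep

/-!
Adding one generator `b` to a closed listing of a subgroup `K`: each element of `K` lies on an edge
of the closed listing whose type is in `Z`, where `b` commutes with all elements of `Z`. We keep
track of the types of the edges at each element.
-/

namespace Pool.Agent.P8H49.Ham

open Pool.Agent.R759.HC

attribute [local instance] Classical.propDecidable

variable {G : Type*} [Group G]

/-- there is an edge of `σ` at `x` whose type is in `Y` -/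
def HasE (Y : Set G) (σ : Equiv.Perm G) (x : G) : Prop :=
  x⁻¹ * σ x ∈ Y ∨ ∃ c ∈ Y, σ (x * c) = x

/-- closed under inverses -/
def Sym (Y : Set G) : Prop := ∀ x ∈ Y, x⁻¹ ∈ Y

theorem HasE.inv {Y : Set G} {σ : Equiv.Perm G} {x : G} (h : HasE Y σ x) : HasE Y σ⁻¹ x := by
  rcases h with h | ⟨c, hc, h⟩
  · right
    refine ⟨_, h, ?_⟩
    rw [mul_inv_cancel_left, pinv2]
  · left
    have : σ⁻¹ x = x * c := by rw [Equiv.Perm.inv_eq_iff_eq, h]
    rw [this, inv_mul_cancel_left]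
    exact hc

theorem HasE.translate {Y : Set G} {σ : Equiv.Perm G} {g x : G} (h : HasE Y σ (g⁻¹ * x)) :
    HasE Y (Equiv.mulLeft g * σ * (Equiv.mulLeft g)⁻¹) x := by
  have ap : ∀ v, (Equiv.mulLeft g * σ * (Equiv.mulLeft g)⁻¹) v = g * σ (g⁻¹ * v) := fun v => rfl
  rcases h with h | ⟨c, hc, h⟩
  · left
    rw [ap]
    have e : x⁻¹ * (g * σ (g⁻¹ * x)) = (g⁻¹ * x)⁻¹ * σ (g⁻¹ * x) := by group
    rw [e]; exact h
  · right
    refine ⟨c, hc, ?_⟩
    rw [ap, ← mul_assoc g⁻¹ x c, h, mul_inv_cancel_left]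

theorem HasE.mono {Y Y' : Set G} (hY : Y ⊆ Y') {σ : Equiv.Perm G} {x : G} (h : HasE Y σ x) :
    HasE Y' σ x := by
  rcases h with h | ⟨c, hc, h⟩
  · exact Or.inl (hY h)
  · exact Or.inr ⟨c, hY hc, h⟩

/-- as `Inv`, with the types of the edges at each element; the edges which are removed have
types in `Z` -/
structure AInv (A B Z : Set G) (K L : Subgroup G) (b : G) (τ : Equiv.Perm G) (U : Set G)
    (σ : Equiv.Perm G) (P M : Set G) : Prop where
  one : (1 : G) ∈ U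
  sub : ∀ x ∈ U, x ∈ L
  right : ∀ x ∈ U, ∀ k ∈ K, x * k ∈ U
  cyc : CycOn A U σ
  coset : ∀ x ∈ U, ∃ ρ : Equiv.Perm G, CycOn B {y | x⁻¹ * y ∈ K} ρ ∧
    (∀ Y : Set G, Sym Y → (∀ v ∈ K, HasE Y τ v) → ∀ y, x⁻¹ * y ∈ K → HasE Y ρ y) ∧
    ∀ y, x⁻¹ * y ∈ K → y ∉ P → y ∉ M → σ y = ρ y
  posU : ∀ x ∈ P, x ∈ U
  negU : ∀ x ∈ M, x ∈ U
  pos : ∀ x ∈ P, x * b ∈ U
  neg : ∀ x ∈ M, x * b⁻¹ ∈ U
  posI : ∀ x ∈ P, ∀ y ∈ P, x⁻¹ * y ∈ K → (x * b)⁻¹ * (y * b) ∈ K → x = y
  negI : ∀ x ∈ M, ∀ y ∈ M, x⁻¹ * y ∈ K → (x * b⁻¹)⁻¹ * (y * b⁻¹) ∈ K → x = y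
  keep : ∀ Y : Set G, Sym Y → Disjoint Y Z → (∀ v ∈ K, HasE Y τ v) → ∀ x ∈ U, HasE Y σ x
  grow : ∀ Y : Set G, Sym Y → (∀ v ∈ K, HasE Y τ v) → ∀ x ∈ U, HasE (Y ∪ {b, b⁻¹}) σ x

theorem AInv.swap {A B Z : Set G} {K L : Subgroup G} {b : G} {τ : Equiv.Perm G} {U : Set G}
    {σ : Equiv.Perm G} {P M : Set G} (h : AInv A B Z K L b τ U σ P M) :
    AInv A B Z K L b⁻¹ τ U σ M P where
  one := h.one
  sub := h.sub
  right := h.right
  cyc := h.cyc
  coset := fun x hx => by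
    obtain ⟨ρ, h1, h3, h2⟩ := h.coset x hx
    exact ⟨ρ, h1, h3, fun y hy a b => h2 y hy b a⟩
  posU := h.negU
  negU := h.posU
  pos := h.neg
  neg := fun x hx => by rw [inv_inv]; exact h.pos x hx
  posI := h.negI
  negI := fun x hx y hy h1 h2 => by
    rw [inv_inv] at h2
    exact h.posI x hx y hy h1 h2
  keep := h.keep
  grow := fun Y hY hv x hx => by
    have := h.grow Y hY hv x hx
    rwa [inv_inv, Set.pair_comm]

variable [Finite G]

theorem afree_pos {Z : Set G} {K : Subgroup G} {b : G} {U P M : Set G} {x₀ : G}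
    {ρ : Equiv.Perm G} (hZ : Sym Z) (hZK : ∀ x ∈ Z, x ∈ K) (hZb : ∀ x ∈ Z, x * b = b * x)
    (hE : ∀ y, x₀⁻¹ * y ∈ K → HasE Z ρ y)
    (h3 : b * b ∈ K ∨ 3 ≤ Nat.card (Subgroup.closure Z))
    (right : ∀ x ∈ U, ∀ k ∈ K, x * k ∈ U) (hx₀b : x₀ * b ∉ U)
    (pos : ∀ x ∈ P, x * b ∈ U) (neg : ∀ x ∈ M, x * b⁻¹ ∈ U)
    (negI : ∀ x ∈ M, ∀ y ∈ M, x⁻¹ * y ∈ K → (x * b⁻¹)⁻¹ * (y * b⁻¹) ∈ K → x = y) :
    ∃ y, x₀⁻¹ * y ∈ K ∧ y ∉ P ∧ y ∉ M ∧ y⁻¹ * ρ y ∈ Z ∧ y * b ∉ U ∧
      (x₀ * b)⁻¹ * (y * b) ∈ K := by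
  set J := Subgroup.closure Z with hJ
  have hJc : ∀ j ∈ J, j ∈ K ∧ j * b = b * j := by
    intro j hj
    induction hj using Subgroup.closure_induction with
    | mem x hx => exact ⟨hZK x hx, hZb x hx⟩
    | one => exact ⟨K.one_mem, by simp⟩
    | mul x y _ _ hx hy =>
      refine ⟨K.mul_mem hx.1 hy.1, ?_⟩
      rw [mul_assoc, hy.2, ← mul_assoc, hx.2, mul_assoc]
    | inv x _ hx =>
      refine ⟨K.inv_mem hx.1, ?_⟩
      have := hx.2
      calc x⁻¹ * b = x⁻¹ * (b * x) * x⁻¹ := by group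
        _ = x⁻¹ * (x * b) * x⁻¹ := by rw [this]
        _ = b * x⁻¹ := by group
  -- each point is next to an edge of type in `Z`
  have claim : ∀ y, x₀⁻¹ * y ∈ K → ∃ w, (y = w ∨ y = ρ w) ∧ w⁻¹ * ρ w ∈ Z ∧ y⁻¹ * w ∈ J := by
    intro y hy
    rcases hE y hy with h | ⟨c, hc, h⟩
    · exact ⟨y, Or.inl rfl, h, by simp [J.one_mem]⟩
    · refine ⟨y * c, Or.inr h.symm, ?_, ?_⟩
      · rw [h]
        have e : (y * c)⁻¹ * y = c⁻¹ := by group
        rw [e]; exact hZ c hc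
      · rw [inv_mul_cancel_left]
        exact Subgroup.subset_closure hc
  have hJb : ∀ y, x₀⁻¹ * y ∈ J → y * b ∉ U ∧ (x₀ * b)⁻¹ * (y * b) ∈ K := by
    intro y hy
    have h1 := hJc _ hy
    have e : (x₀ * b)⁻¹ * (y * b) = x₀⁻¹ * y := by
      calc (x₀ * b)⁻¹ * (y * b) = b⁻¹ * ((x₀⁻¹ * y) * b) := by group
        _ = b⁻¹ * (b * (x₀⁻¹ * y)) := by rw [h1.2]
        _ = x₀⁻¹ * y := by group
    refine ⟨?_, by rw [e]; exact h1.1⟩
    intro h
    apply hx₀b
    have h2 := right _ h _ (K.inv_mem h1.1)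
    have e2 : y * b * (x₀⁻¹ * y)⁻¹ = x₀ * b := by
      rw [← e]; group
    rwa [e2] at h2
  rcases h3 with hbb | h3
  · obtain ⟨w, _, hw, hwJ⟩ := claim x₀ (by simp [K.one_mem])
    have h1 := hJb w hwJ
    refine ⟨w, (hJc _ hwJ).1, fun h => h1.1 (pos w h), ?_, hw, h1.1, h1.2⟩
    intro h
    apply h1.1
    have h2 := right _ (neg w h) _ hbb
    have e : w * b⁻¹ * (b * b) = w * b := by group
    rwa [e] at h2
  · by_contra hno
    push Not at hno
    have hM : ∀ w, x₀⁻¹ * w ∈ J → w⁻¹ * ρ w ∈ Z → w ∈ M := by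
      intro w hw hwc
      by_contra hwM
      have h1 := hJb w hw
      exact hno w (hJc _ hw).1 (fun h => h1.1 (pos w h)) hwM hwc h1.1 h1.2
    have heq : ∀ w w', x₀⁻¹ * w ∈ J → w⁻¹ * ρ w ∈ Z → x₀⁻¹ * w' ∈ J →
        w'⁻¹ * ρ w' ∈ Z → w = w' := by
      intro w w' h1 h2 h1' h2'
      have h4 : w⁻¹ * w' ∈ J := by
        have := J.mul_mem (J.inv_mem h1) h1'
        have e : (x₀⁻¹ * w)⁻¹ * (x₀⁻¹ * w') = w⁻¹ * w' := by group
        rwa [e] at this
      have h5 := hJc _ h4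
      apply negI w (hM w h1 h2) w' (hM w' h1' h2') h5.1
      have e : (w * b⁻¹)⁻¹ * (w' * b⁻¹) = w⁻¹ * w' := by
        calc (w * b⁻¹)⁻¹ * (w' * b⁻¹) = (b * (w⁻¹ * w')) * b⁻¹ := by group
          _ = ((w⁻¹ * w') * b) * b⁻¹ := by rw [h5.2]
          _ = w⁻¹ * w' := by group
      rw [e]; exact h5.1
    obtain ⟨m, _, hm, hmJ⟩ := claim x₀ (by simp [K.one_mem])
    apply coset_three J h3 x₀ m (ρ m)
    intro y hy
    obtain ⟨w, hyw, hw, hwJ⟩ := claim y (hJc _ hy).1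
    have hwJ' : x₀⁻¹ * w ∈ J := by
      have := J.mul_mem hy hwJ
      have e : (x₀⁻¹ * y) * (y⁻¹ * w) = x₀⁻¹ * w := by group
      rwa [e] at this
    have := heq w m hwJ' hw hmJ hm
    rw [this] at hyw
    exact hyw

theorem AInv.extend {A B Z : Set G} {K L : Subgroup G} {b : G} {τ : Equiv.Perm G} {U : Set G}
    {σ : Equiv.Perm G} {P M : Set G} (h : AInv A B Z K L b τ U σ P M) (hA : Sym A) (hB : Sym B)
    (hZ : Sym Z) (hBA : B ⊆ A) (hBK : ∀ x ∈ B, x ∈ K) (hKL : K ≤ L)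
    (hZK : ∀ x ∈ Z, x ∈ K) (hZb : ∀ x ∈ Z, x * b = b * x) (hE : ∀ y ∈ K, HasE Z τ y)
    (hbL : b ∈ L) (hbA : b ∈ A)
    (h3 : b * b ∈ K ∨ 3 ≤ Nat.card (Subgroup.closure Z))
    {x₀ : G} (hx₀ : x₀ ∈ U) (hx₀b : x₀ * b ∉ U) :
    ∃ (U' : Set G) (σ' : Equiv.Perm G) (P' M' : Set G),
      AInv A B Z K L b τ U' σ' P' M' ∧ U ⊆ U' ∧ x₀ * b ∈ U' := by
  obtain ⟨ρ, hρ, hρE, hσρ⟩ := h.coset x₀ hx₀
  obtain ⟨y, hyK, hyP, hyM, hycZ, hyU, hyx⟩ := afree_pos hZ hZK hZb (hρE Z hZ hE) h3 h.right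
    hx₀b h.pos h.neg h.negI
  have hyc := hZb _ hycZ
  have hy : y ∈ U := by
    have := h.right _ hx₀ _ hyK
    rwa [mul_inv_cancel_left] at this
  have hσy : σ y = ρ y := hσρ y hyK hyP hyM
  have hσyU : σ y ∈ U := h.cyc.maps y hy
  have hσyK : y⁻¹ * σ y ∈ K := by
    rw [hσy]; exact hBK _ (hρ.step y hyK)
  -- the cycle in the new coset
  have hσ2 := (hρ.inv hB).translate (y * b * y⁻¹)
  set σ2 := Equiv.mulLeft (y * b * y⁻¹) * ρ⁻¹ * (Equiv.mulLeft (y * b * y⁻¹))⁻¹ with hσ2def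
  have ap2 : ∀ v, σ2 v = (y * b * y⁻¹) * ρ⁻¹ ((y * b * y⁻¹)⁻¹ * v) := by
    intro v
    rfl
  have hsete : ∀ v, x₀⁻¹ * ((y * b * y⁻¹)⁻¹ * v) ∈ K ↔ (y * b)⁻¹ * v ∈ K := by
    intro v
    have e : x₀⁻¹ * ((y * b * y⁻¹)⁻¹ * v) = (x₀⁻¹ * y) * ((y * b)⁻¹ * v) := by group
    rw [e]
    exact Subgroup.mul_mem_cancel_left K hyK
  have hset : {x | (y * b * y⁻¹)⁻¹ * x ∈ {v | x₀⁻¹ * v ∈ K}} = {v | (y * b)⁻¹ * v ∈ K} := by
    ext v
    exact hsete v
  rw [hset] at hσ2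
  have hσ2E : ∀ Y : Set G, Sym Y → (∀ v ∈ K, HasE Y τ v) → ∀ v, (y * b)⁻¹ * v ∈ K →
      HasE Y σ2 v := by
    intro Y hY hYτ v hv
    exact HasE.translate (hρE Y hY hYτ _ ((hsete v).2 hv)).inv
  have hnotU : ∀ v, (y * b)⁻¹ * v ∈ K → v ∉ U := by
    intro v hv hvU
    apply hyU
    have := h.right _ hvU _ (K.inv_mem hv)
    have e : v * ((y * b)⁻¹ * v)⁻¹ = y * b := by group
    rwa [e] at this
  have hcb : σ y * b = (y * b) * (y⁻¹ * σ y) := by
    rw [hσy]
    calc ρ y * b = y * ((y⁻¹ * ρ y) * b) := by group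
      _ = y * (b * (y⁻¹ * ρ y)) := by rw [hyc]
      _ = (y * b) * (y⁻¹ * ρ y) := by group
  have hy'mem : (y * b)⁻¹ * (σ y * b) ∈ K := by
    rw [hcb, inv_mul_cancel_left]; exact hσyK
  have hxy' : σ2 (σ y * b) = y * b := by
    rw [ap2]
    have e : (y * b * y⁻¹)⁻¹ * (σ y * b) = σ y := by
      rw [hcb]; group
    rw [e, hσy, pinv2]
    group
  have s1 : y⁻¹ * (y * b) ∈ A := by rw [inv_mul_cancel_left]; exact hbA
  have s2 : (σ y * b)⁻¹ * σ y ∈ A := by
    have e : (σ y * b)⁻¹ * σ y = b⁻¹ := by group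
    rw [e]; exact hA b hbA
  have hσ2' : CycOn A {v | (y * b)⁻¹ * v ∈ K} σ2 :=
    ⟨hσ2.fix, hσ2.maps, fun x hx => hBA (hσ2.step x hx), hσ2.cyc⟩
  obtain ⟨hm, em1, em2⟩ := h.cyc.merge hσ2' (fun v hv hv' => hnotU v hv' hv) hy hy'mem hxy' s1 s2
  set σ' := σ * σ2 * Equiv.swap y (σ y * b) with hσ'
  have ey : σ' y = y * b := by
    have h1 : y * b ∉ U := hyU
    change σ (σ2 (Equiv.swap y (σ y * b) y)) = y * b
    rw [Equiv.swap_apply_left, hxy', h.cyc.fix _ h1]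
  have ey' : σ' (σ y * b) = σ y := by
    change σ (σ2 (Equiv.swap y (σ y * b) (σ y * b))) = σ y
    rw [Equiv.swap_apply_right, hσ2.fix]
    intro h1
    exact hnotU y h1 hy
  -- the type of the edge at `y`
  have hcZ : y⁻¹ * σ y ∈ Z := by rw [hσy]; exact hycZ
  -- the type of the edge at `σ y * b`
  have hc2 : (σ y * b)⁻¹ * σ2 (σ y * b) = (y⁻¹ * σ y)⁻¹ := by
    rw [hxy', hcb]; group
  refine ⟨U ∪ {v | (y * b)⁻¹ * v ∈ K}, σ', insert y P, insert (σ y * b) M,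
    ⟨?_, ?_, ?_, hm, ?_, ?_, ?_, ?_, ?_, ?_, ?_, ?_, ?_⟩, Set.subset_union_left, ?_⟩
  · exact Or.inl h.one
  · rintro x (hx | hx)
    · exact h.sub x hx
    · have h1 : y * b ∈ L := L.mul_mem (h.sub y hy) hbL
      have h2 := L.mul_mem h1 (hKL hx)
      rwa [mul_inv_cancel_left] at h2
  · rintro x (hx | hx) k hk
    · exact Or.inl (h.right x hx k hk)
    · right
      have h1 := K.mul_mem hx hk
      have e : (y * b)⁻¹ * x * k = (y * b)⁻¹ * (x * k) := by group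
      rw [e] at h1
      exact h1
  · rintro x (hx | hx)
    · obtain ⟨ρ', h1, h3, h2⟩ := h.coset x hx
      refine ⟨ρ', h1, h3, ?_⟩
      intro v hv hvP hvM
      have hvU : v ∈ U := by
        have := h.right _ hx _ hv
        rwa [mul_inv_cancel_left] at this
      rw [em1 v hvU (fun h => hvP (Or.inl h))]
      exact h2 v hv (fun h => hvP (Or.inr h)) (fun h => hvM (Or.inr h))
    · have hcos : ∀ v, x⁻¹ * v ∈ K ↔ (y * b)⁻¹ * v ∈ K := by
        intro v
        have e : (y * b)⁻¹ * v = ((y * b)⁻¹ * x) * (x⁻¹ * v) := by group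
        rw [e]
        exact (Subgroup.mul_mem_cancel_left K hx).symm
      refine ⟨σ2, ?_, ?_, ?_⟩
      · have e : {v | x⁻¹ * v ∈ K} = {v | (y * b)⁻¹ * v ∈ K} := by
          ext v
          exact hcos v
        rw [e]; exact hσ2
      · intro Y hY hYτ v hv
        exact hσ2E Y hY hYτ v ((hcos v).1 hv)
      · intro v hv hvP hvM
        exact em2 v ((hcos v).1 hv) (fun h => hvM (Or.inl h))
  · rintro x (rfl | hx)
    · exact Or.inl hy
    · exact Or.inl (h.posU x hx)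
  · rintro x (rfl | hx)
    · exact Or.inr hy'mem
    · exact Or.inl (h.negU x hx)
  · rintro x (rfl | hx)
    · right
      simp [K.one_mem]
    · exact Or.inl (h.pos x hx)
  · rintro x (rfl | hx)
    · left
      rw [mul_inv_cancel_right]; exact hσyU
    · exact Or.inl (h.neg x hx)
  · rintro x (rfl | hx) w (rfl | hw) h1 h2
    · rfl
    · exact absurd (h.pos w hw) (hnotU _ h2)
    · exfalso
      refine hnotU (x * b) ?_ (h.pos x hx)
      have := K.inv_mem h2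
      rwa [mul_inv_rev, inv_inv] at this
    · exact h.posI x hx w hw h1 h2
  · rintro x (rfl | hx) w (rfl | hw) h1 h2
    · rfl
    · refine absurd (h.negU w hw) (hnotU w ?_)
      have := K.mul_mem hy'mem h1
      have e : (y * b)⁻¹ * (σ y * b) * ((σ y * b)⁻¹ * w) = (y * b)⁻¹ * w := by group
      rwa [e] at this
    · refine absurd (h.negU x hx) (hnotU x ?_)
      have := K.mul_mem hy'mem (K.inv_mem h1)
      have e : (y * b)⁻¹ * (σ y * b) * (x⁻¹ * (σ y * b))⁻¹ = (y * b)⁻¹ * x := by group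
      rwa [e] at this
    · exact h.negI x hx w hw h1 h2
  · -- keep
    intro Y hY hYZ hYτ z hz
    have hdis : ∀ c, c ∈ Y → c ∉ Z := fun c h1 h2 => Set.disjoint_left.1 hYZ h1 h2
    rcases hz with hz | hz
    · rcases h.keep Y hY hYZ hYτ z hz with h1 | ⟨c, hc, h1⟩
      · left
        rw [em1 z hz (by
          rintro rfl
          exact hdis _ h1 hcZ)]
        exact h1
      · right
        refine ⟨c, hc, ?_⟩
        have hzc : z * c ∈ U := by
          by_contra hn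
          have h2 := h.cyc.fix _ hn
          rw [h1] at h2
          rw [← h2] at hn
          exact hn hz
        rw [em1 _ hzc, h1]
        intro h2
        apply hdis c⁻¹ (hY c hc)
        have h4 : y⁻¹ * σ y = c⁻¹ := by
          rw [← h2, h1]; group
        rw [← h4]; exact hcZ
    · rcases hσ2E Y hY hYτ z hz with h1 | ⟨c, hc, h1⟩
      · left
        rw [em2 z hz (by
          rintro rfl
          rw [hc2] at h1
          exact hdis _ h1 (hZ _ hcZ))]
        exact h1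
      · right
        refine ⟨c, hc, ?_⟩
        have hzc : z * c ∈ {v | (y * b)⁻¹ * v ∈ K} := by
          by_contra hn
          have h2 := hσ2.fix _ hn
          rw [h1] at h2
          rw [← h2] at hn
          exact hn hz
        rw [em2 _ hzc, h1]
        intro h2
        apply hdis c hc
        have h4 : (σ y * b)⁻¹ * σ2 (σ y * b) = c⁻¹ := by
          rw [← h2, h1]; group
        rw [hc2] at h4
        rw [← inv_inj.1 h4]; exact hcZ
  · -- grow
    intro Y hY hYτ z hz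
    have hb1 : b ∈ Y ∪ ({b, b⁻¹} : Set G) := Or.inr (by simp)
    have hb2 : b⁻¹ ∈ Y ∪ ({b, b⁻¹} : Set G) := Or.inr (by simp)
    rcases hz with hz | hz
    · rcases h.grow Y hY hYτ z hz with h1 | ⟨c, hc, h1⟩
      · left
        by_cases hzy : z = y
        · rw [hzy, ey, inv_mul_cancel_left]; exact hb1
        · rw [em1 z hz hzy]; exact h1
      · right
        have hzc : z * c ∈ U := by
          by_contra hn
          have h2 := h.cyc.fix _ hn
          rw [h1] at h2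
          rw [← h2] at hn
          exact hn hz
        by_cases hzy : z * c = y
        · refine ⟨b, hb1, ?_⟩
          have h2 : σ y = z := by rw [← hzy, h1]
          rw [← h2]; exact ey'
        · exact ⟨c, hc, by rw [em1 _ hzc hzy, h1]⟩
    · rcases hσ2E Y hY hYτ z hz with h1 | ⟨c, hc, h1⟩
      · left
        by_cases hzy : z = σ y * b
        · rw [hzy, ey']
          have e : (σ y * b)⁻¹ * σ y = b⁻¹ := by group
          rw [e]; exact hb2
        · rw [em2 z hz hzy]; exact Or.inl h1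
      · right
        have hzc : z * c ∈ {v | (y * b)⁻¹ * v ∈ K} := by
          by_contra hn
          have h2 := hσ2.fix _ hn
          rw [h1] at h2
          rw [← h2] at hn
          exact hn hz
        by_cases hzy : z * c = σ y * b
        · refine ⟨b⁻¹, hb2, ?_⟩
          have h2 : z = y * b := by rw [← h1, hzy, hxy']
          rw [h2, mul_inv_cancel_right, ey]
        · exact ⟨c, Or.inl hc, by rw [em2 _ hzc hzy, h1]⟩
  · right
    simp only [Set.mem_ofPred_eq]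
    have := K.inv_mem hyx
    rwa [mul_inv_rev, inv_inv] at this

theorem astep_aux {A B Z : Set G} {K L : Subgroup G} {b : G} {τ : Equiv.Perm G} (hA : Sym A)
    (hB : Sym B) (hZ : Sym Z) (hBA : B ⊆ A) (hBK : ∀ x ∈ B, x ∈ K) (hKL : K ≤ L)
    (hZK : ∀ x ∈ Z, x ∈ K) (hZb : ∀ x ∈ Z, x * b = b * x) (hE : ∀ y ∈ K, HasE Z τ y)
    (hbL : b ∈ L) (hLb : L ≤ K ⊔ Subgroup.zpowers b) (hbA : b ∈ A)
    (h3 : b * b ∈ K ∨ 3 ≤ Nat.card (Subgroup.closure Z)) :
    ∀ (n : ℕ) (U : Set G) (σ : Equiv.Perm G) (P M : Set G), AInv A B Z K L b τ U σ P M →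
      ((L : Set G) \ U).ncard = n → ∃ (σ : Equiv.Perm G) (P M : Set G),
        AInv A B Z K L b τ (L : Set G) σ P M := by
  intro n
  induction n using Nat.strong_induction_on with
  | _ n ih =>
    intro U σ P M h hn
    by_cases hUL : ∀ x ∈ L, x ∈ U
    · have : U = (L : Set G) := Set.Subset.antisymm h.sub hUL
      exact ⟨σ, P, M, this ▸ h⟩
    have hout : ∃ x ∈ U, x * b ∉ U ∨ x * b⁻¹ ∉ U := by
      by_contra hno
      push Not at hno
      apply hUL
      intro x hx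
      have hx' := hLb hx
      have hall : ∀ y ∈ K ⊔ Subgroup.zpowers b, ∀ u ∈ U, u * y ∈ U := by
        intro y hy
        rw [Subgroup.sup_eq_closure] at hy
        induction hy using Subgroup.closure_induction with
        | mem y hy =>
          intro u hu
          rcases hy with hy | hy
          · exact h.right u hu y hy
          · obtain ⟨i, rfl⟩ := Subgroup.mem_zpowers_iff.1 hy
            induction i using Int.induction_on with
            | zero => simpa using hu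
            | succ i ih =>
              have h1 := (hno _ (ih (Subgroup.zpow_mem_zpowers b _))).1
              rwa [mul_assoc, ← zpow_add_one] at h1
            | pred i ih =>
              have h1 := (hno _ (ih (Subgroup.zpow_mem_zpowers b _))).2
              rwa [mul_assoc, ← zpow_sub_one] at h1
        | one => intro u hu; simpa using hu
        | mul y y' _ _ h1 h2 =>
          intro u hu
          rw [← mul_assoc]
          exact h2 _ (h1 u hu)
        | inv y _ h1 =>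
          intro u hu
          have h2 : ∀ n : ℕ, u * y ^ n ∈ U := by
            intro n
            induction n with
            | zero => simpa using hu
            | succ n ih => rw [pow_succ, ← mul_assoc]; exact h1 _ ih
          obtain ⟨m, hm⟩ : ∃ m : ℕ, y ^ m = y⁻¹ := by
            have : y⁻¹ ∈ Subgroup.zpowers y := Subgroup.inv_mem _ (Subgroup.mem_zpowers y)
            rw [← mem_powers_iff_mem_zpowers, Submonoid.mem_powers_iff] at this
            exact this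
          rw [← hm]; exact h2 m
      have := hall x hx' 1 h.one
      rwa [one_mul] at this
    have key : ∃ (U' : Set G) (σ' : Equiv.Perm G) (P' M' : Set G),
        AInv A B Z K L b τ U' σ' P' M' ∧ U ⊆ U' ∧ ∃ x, x ∈ U' ∧ x ∉ U := by
      obtain ⟨x, hx, hxb | hxb⟩ := hout
      · obtain ⟨U', σ', P', M', h1, h2, h4⟩ :=
          h.extend hA hB hZ hBA hBK hKL hZK hZb hE hbL hbA h3 hx hxb
        exact ⟨U', σ', P', M', h1, h2, _, h4, hxb⟩
      · have hZb' : ∀ c ∈ Z, c * b⁻¹ = b⁻¹ * c := by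
          intro c hc
          have := hZb c hc
          calc c * b⁻¹ = b⁻¹ * (b * c) * b⁻¹ := by group
            _ = b⁻¹ * (c * b) * b⁻¹ := by rw [this]
            _ = b⁻¹ * c := by group
        have h3' : b⁻¹ * b⁻¹ ∈ K ∨ 3 ≤ Nat.card (Subgroup.closure Z) := by
          rcases h3 with h3 | h3
          · left
            have := K.inv_mem h3
            rwa [mul_inv_rev] at this
          · right; exact h3
        obtain ⟨U', σ', P', M', h1, h2, h4⟩ :=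
          h.swap.extend hA hB hZ hBA hBK hKL hZK hZb' hE (L.inv_mem hbL) (hA b hbA) h3' hx hxb
        have h5 := h1.swap
        rw [inv_inv] at h5
        exact ⟨U', σ', M', P', h5, h2, _, h4, hxb⟩
    obtain ⟨U', σ', P', M', h1, h2, x, hx, hxU⟩ := key
    refine ih _ ?_ U' σ' P' M' h1 rfl
    rw [← hn]
    apply Set.ncard_lt_ncard _ (Set.toFinite _)
    refine ⟨fun y hy => ⟨hy.1, fun h => hy.2 (h2 h)⟩, ?_⟩
    intro hsub
    exact (hsub ⟨h1.sub x hx, hxU⟩ : x ∈ (L : Set G) \ U').2 hx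

/-- **One more generator**, with control of the types. -/
theorem astep {A B Z : Set G} {K : Subgroup G} {b : G} {τ : Equiv.Perm G} (hA : Sym A)
    (hB : Sym B) (hZ : Sym Z) (hBA : B ⊆ A) (hBK : ∀ x ∈ B, x ∈ K)
    (hZK : ∀ x ∈ Z, x ∈ K) (hZb : ∀ x ∈ Z, x * b = b * x) (hE : ∀ y ∈ K, HasE Z τ y)
    (hbA : b ∈ A) (h3 : b * b ∈ K ∨ 3 ≤ Nat.card (Subgroup.closure Z))
    (hτ : CycOn B (K : Set G) τ) :
    ∃ σ : Equiv.Perm G, CycOn A ((K ⊔ Subgroup.zpowers b : Subgroup G) : Set G) σ ∧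
      (∀ Y : Set G, Sym Y → Disjoint Y Z → (∀ v ∈ K, HasE Y τ v) →
        ∀ x ∈ K ⊔ Subgroup.zpowers b, HasE Y σ x) ∧
      (∀ Y : Set G, Sym Y → (∀ v ∈ K, HasE Y τ v) →
        ∀ x ∈ K ⊔ Subgroup.zpowers b, HasE (Y ∪ {b, b⁻¹}) σ x) := by
  have hcos : ∀ x ∈ K, ∀ y, x⁻¹ * y ∈ K ↔ y ∈ K := fun x hx y =>
    Subgroup.mul_mem_cancel_left K (K.inv_mem hx)
  obtain ⟨σ, P, M, h⟩ := astep_aux (A := A) (B := B) (Z := Z) (τ := τ) hA hB hZ hBA hBK
    (le_sup_left : K ≤ K ⊔ Subgroup.zpowers b) hZK hZb hE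
    ((le_sup_right : _ ≤ K ⊔ Subgroup.zpowers b) (Subgroup.mem_zpowers b)) le_rfl hbA h3
    _ (K : Set G) τ ∅ ∅ ⟨K.one_mem, fun x hx => (le_sup_left : K ≤ K ⊔ Subgroup.zpowers b) hx,
      fun x hx k hk => K.mul_mem hx hk, ⟨hτ.fix, hτ.maps, fun x hx => hBA (hτ.step x hx), hτ.cyc⟩,
      fun x hx => ⟨τ, by
        have e : {y | x⁻¹ * y ∈ K} = (K : Set G) := by
          ext y
          exact hcos x hx y
        rw [e]; exact hτ, fun Y _ hYτ y hy => hYτ y ((hcos x hx y).1 hy), fun _ _ _ _ => rfl⟩,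
      by simp, by simp, by simp, by simp, by simp, by simp,
      fun Y _ _ hYτ x hx => hYτ x hx, fun Y _ hYτ x hx => (hYτ x hx).mono Set.subset_union_left⟩ rfl
  exact ⟨σ, h.cyc, h.keep, h.grow⟩

end Pool.Agent.P8H49.Ham
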