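import Pool.Agent.P8H49.AltStep

/-!
Closed listings whose edges alternate between two classes.
-/

namespace Pool.Agent.P8H49.Ham

open Pool.Agent.R759.HC

attribute [local instance] Classical.propDecidable

variable {G : Type*} [Group G]

/-- `τ` runs once around `K`, with an edge of type in `X` and an edge of type in `Y` at each
element -/
structure AltD (X Y : Set G) (K : Subgroup G) (τ : Equiv.Perm G) : Prop where
  symX : Sym X
  symY : Sym Y
  disj : Disjoint X Y
  XK : ∀ x ∈ X, x ∈ K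
  YK : ∀ x ∈ Y, x ∈ K
  cyc : CycOn (X ∪ Y) (K : Set G) τ
  eX : ∀ x ∈ K, HasE X τ x
  eY : ∀ x ∈ K, HasE Y τ x

theorem AltD.symm {X Y : Set G} {K : Subgroup G} {τ : Equiv.Perm G} (h : AltD X Y K τ) :
    AltD Y X K τ :=
  ⟨h.symY, h.symX, h.disj.symm, h.YK, h.XK, by rw [Set.union_comm]; exact h.cyc, h.eY, h.eX⟩

theorem sym_union {X Y : Set G} (hX : Sym X) (hY : Sym Y) : Sym (X ∪ Y) := by
  rintro x (h | h)
  · exact Or.inl (hX x h)
  · exact Or.inr (hY x h)

theorem sym_pair (b : G) : Sym ({b, b⁻¹} : Set G) := by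
  rintro x (rfl | hx)
  · right; rfl
  · rw [Set.mem_singleton_iff] at hx
    rw [hx, inv_inv]; left; rfl

variable [Finite G]

theorem AltD.add {X Y : Set G} {K : Subgroup G} {τ : Equiv.Perm G} (h : AltD X Y K τ) {b : G}
    (hb : ∀ x ∈ X, x * b = b * x) (hbY : b ∉ Y)
    (h3 : b * b ∈ K ∨ 3 ≤ Nat.card (Subgroup.closure X)) :
    ∃ σ, AltD (X ∪ {b, b⁻¹}) Y (K ⊔ Subgroup.zpowers b) σ := by
  have hXK : ∀ x ∈ X, x ∈ K := h.XK
  have hsub : X ∪ Y ⊆ (X ∪ {b, b⁻¹}) ∪ Y := by
    rintro x (hx | hx)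
    · exact Or.inl (Or.inl hx)
    · exact Or.inr hx
  have hsX : Sym (X ∪ {b, b⁻¹}) := sym_union h.symX (sym_pair b)
  have hbL : b ∈ K ⊔ Subgroup.zpowers b :=
    (le_sup_right : _ ≤ K ⊔ Subgroup.zpowers b) (Subgroup.mem_zpowers b)
  obtain ⟨σ, h1, h2, h4⟩ := astep (A := (X ∪ {b, b⁻¹}) ∪ Y) (B := X ∪ Y) (Z := X) (K := K) (b := b)
    (τ := τ) (sym_union hsX h.symY) (sym_union h.symX h.symY) h.symX hsub
    (by
      rintro x (hx | hx)
      · exact h.XK x hx
      · exact h.YK x hx) hXK hb h.eX (Or.inl (Or.inr (by simp))) h3 h.cyc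
  refine ⟨σ, hsX, h.symY, ?_, ?_, ?_, h1, h4 X h.symX h.eX, h2 Y h.symY h.disj.symm h.eY⟩
  · rw [Set.disjoint_left]
    rintro x (hx | hx) hxY
    · exact Set.disjoint_left.1 h.disj hx hxY
    · rcases hx with rfl | hx
      · exact hbY hxY
      · rw [Set.mem_singleton_iff] at hx
        rw [hx] at hxY
        have := h.symY _ hxY
        rw [inv_inv] at this
        exact hbY this
  · rintro x (hx | hx)
    · exact (le_sup_left : K ≤ K ⊔ Subgroup.zpowers b) (h.XK x hx)
    · rcases hx with rfl | hx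
      · exact hbL
      · rw [Set.mem_singleton_iff] at hx
        rw [hx]; exact Subgroup.inv_mem _ hbL
  · intro x hx
    exact (le_sup_left : K ≤ K ⊔ Subgroup.zpowers b) (h.YK x hx)

/-- adding several commuting elements to `X` -/
theorem AltD.addList {Y : Set G} : ∀ (l : List G) {X : Set G} {K : Subgroup G}
    {τ : Equiv.Perm G}, AltD X Y K τ → (∀ b ∈ l, ∀ x ∈ X, x * b = b * x) →
    (∀ b ∈ l, ∀ c ∈ l, b * c = c * b) → (∀ b ∈ l, b ∉ Y) →
    ((∀ b ∈ l, b * b = 1) ∨ 3 ≤ Nat.card (Subgroup.closure X)) →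
    ∃ σ, AltD (X ∪ {x | x ∈ l ∨ x⁻¹ ∈ l}) Y (K ⊔ Subgroup.closure {x | x ∈ l}) σ := by
  intro l
  induction l with
  | nil =>
    intro X K τ h _ _ _ _
    refine ⟨τ, ?_⟩
    have e1 : X ∪ {x | x ∈ ([] : List G) ∨ x⁻¹ ∈ ([] : List G)} = X := by
      ext x; simp
    have e2 : {x | x ∈ ([] : List G)} = (∅ : Set G) := by
      ext x; simp
    rw [e1, e2, Subgroup.closure_empty, sup_bot_eq]
    exact h
  | cons b l ih =>
    intro X K τ h hlX hll hlY h3
    obtain ⟨σ, hσ⟩ := h.add (hlX b List.mem_cons_self) (hlY b List.mem_cons_self) (by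
      rcases h3 with h3 | h3
      · left
        rw [h3 b List.mem_cons_self]
        exact K.one_mem
      · exact Or.inr h3)
    obtain ⟨σ', hσ'⟩ := ih hσ (by
        rintro c hc x (hx | hx)
        · exact hlX c (List.mem_cons_of_mem _ hc) x hx
        · have hbc := hll b List.mem_cons_self c (List.mem_cons_of_mem _ hc)
          rcases hx with rfl | hx
          · exact hbc
          · rw [Set.mem_singleton_iff] at hx
            rw [hx]
            calc b⁻¹ * c = b⁻¹ * (c * b) * b⁻¹ := by group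
              _ = b⁻¹ * (b * c) * b⁻¹ := by rw [hbc]
              _ = c * b⁻¹ := by group)
      (fun c hc d hd => hll c (List.mem_cons_of_mem _ hc) d (List.mem_cons_of_mem _ hd))
      (fun c hc => hlY c (List.mem_cons_of_mem _ hc))
      (by
        rcases h3 with h3 | h3
        · exact Or.inl fun c hc => h3 c (List.mem_cons_of_mem _ hc)
        · right
          exact h3.trans (Subgroup.card_le_of_le (Subgroup.closure_mono Set.subset_union_left)))
    refine ⟨σ', ?_⟩
    have e1 : X ∪ {b, b⁻¹} ∪ {x | x ∈ l ∨ x⁻¹ ∈ l} = X ∪ {x | x ∈ b :: l ∨ x⁻¹ ∈ b :: l} := by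
      ext x
      simp only [Set.mem_union, Set.mem_insert_iff, Set.mem_singleton_iff, Set.mem_ofPred_eq,
        List.mem_cons, inv_eq_iff_eq_inv]
      tauto
    have e2 : K ⊔ Subgroup.zpowers b ⊔ Subgroup.closure {x | x ∈ l} =
        K ⊔ Subgroup.closure {x | x ∈ b :: l} := by
      rw [sup_assoc, Subgroup.zpowers_eq_closure, ← Subgroup.closure_union]
      congr 2
      ext x
      simp
    rw [e1, e2] at hσ'
    exact hσ'

/-- adding a set of commuting elements to `X` -/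
theorem AltD.addSet {X Y : Set G} {K : Subgroup G} {τ : Equiv.Perm G} (h : AltD X Y K τ)
    (P : Set G) (hPX : ∀ b ∈ P, ∀ x ∈ X, x * b = b * x) (hPP : ∀ b ∈ P, ∀ c ∈ P, b * c = c * b)
    (hPY : ∀ b ∈ P, b ∉ Y)
    (h3 : (∀ b ∈ P, b * b = 1) ∨ 3 ≤ Nat.card (Subgroup.closure X)) :
    ∃ σ, AltD (X ∪ {x | x ∈ P ∨ x⁻¹ ∈ P}) Y (K ⊔ Subgroup.closure P) σ := by
  have hfin : P.Finite := Set.toFinite _
  have hmem : ∀ x, x ∈ hfin.toFinset.toList ↔ x ∈ P := by
    intro x
    rw [Finset.mem_toList, Set.Finite.mem_toFinset]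
  obtain ⟨σ, hσ⟩ := h.addList hfin.toFinset.toList (fun b hb => hPX b ((hmem b).1 hb))
    (fun b hb c hc => hPP b ((hmem b).1 hb) c ((hmem c).1 hc)) (fun b hb => hPY b ((hmem b).1 hb))
    (by
      rcases h3 with h3 | h3
      · exact Or.inl fun b hb => h3 b ((hmem b).1 hb)
      · exact Or.inr h3)
  refine ⟨σ, ?_⟩
  simp only [hmem] at hσ
  exact hσ

/-- the dihedral start -/
theorem altD_dihedral {a c : G} (ha1 : a ≠ 1) (hc1 : c ≠ 1) (hac : a ≠ c) (ha : a * a = 1)
    (hc : c * c = 1) : ∃ τ, AltD {a} {c} (Subgroup.closure {a, c}) τ := by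
  obtain ⟨τ, h1, h2⟩ := cyc_dihedral (A := ({a} : Set G) ∪ {c}) (a := a) (b := c) (by simp)
    (by simp) ha1 hc1 hac ha hc
  have hcl : ∀ x ∈ Subgroup.closure ({a, c} : Set G),
      (x : G ⧸ Subgroup.closure ({a, c} : Set G)) = ((1 : G) : G ⧸ Subgroup.closure {a, c}) := by
    intro x hx
    symm
    rw [QuotientGroup.eq]
    simpa using hx
  refine ⟨τ, ?_, ?_, ?_, ?_, ?_, h1, ?_, ?_⟩
  · intro x hx
    rw [Set.mem_singleton_iff] at hx
    rw [hx, Set.mem_singleton_iff]
    exact inv_eq_of_mul_eq_one_left ha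
  · intro x hx
    rw [Set.mem_singleton_iff] at hx
    rw [hx, Set.mem_singleton_iff]
    exact inv_eq_of_mul_eq_one_left hc
  · rw [Set.disjoint_singleton]; exact hac
  · intro x hx
    rw [Set.mem_singleton_iff] at hx
    rw [hx]; exact Subgroup.subset_closure (by simp)
  · intro x hx
    rw [Set.mem_singleton_iff] at hx
    rw [hx]; exact Subgroup.subset_closure (by simp)
  · intro x hx
    rcases h2 x a (hcl x hx) (Or.inl rfl) with h | h
    · left; rw [h, inv_mul_cancel_left]; rfl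
    · exact Or.inr ⟨a, rfl, h⟩
  · intro x hx
    rcases h2 x c (hcl x hx) (Or.inr rfl) with h | h
    · left; rw [h, inv_mul_cancel_left]; rfl
    · exact Or.inr ⟨c, rfl, h⟩

/-- the inverses of the elements of `P` are added to `P` -/
def Pm (P : Set G) : Set G := {x | x ∈ P ∨ x⁻¹ ∈ P}

theorem two_sets {P Q : Set G} (hP : ∀ x ∈ P, ∀ y ∈ P, x * y = y * x)
    (hQ : ∀ x ∈ Q, ∀ y ∈ Q, x * y = y * x) (hdis : ∀ x ∈ P, x ∉ Q ∧ x⁻¹ ∉ Q)
    {p q : G} (hp : p ∈ P) (hp1 : p ≠ 1) (hpp : p * p = 1) (hq : q ∈ Q) (hq1 : q ≠ 1)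
    (hqq : q * q = 1)
    (hP3 : (∀ x ∈ P, x * x = 1) ∨ 3 ≤ Nat.card (Subgroup.closure {x | x ∈ P ∧ x * x = 1}))
    (hQ3 : (∀ x ∈ Q, x * x = 1) ∨ 3 ≤ Nat.card (Subgroup.closure {x | x ∈ Q ∧ x * x = 1}))
    (hgen : Subgroup.closure (P ∪ Q) = ⊤) :
    ∃ σ, AltD (Pm P) (Pm Q) (⊤ : Subgroup G) σ := by
  have hpq : p ≠ q := fun h => (hdis p hp).1 (h ▸ hq)
  obtain ⟨τ, hτ⟩ := altD_dihedral hp1 hq1 hpq hpp hqq
  have hinv : ∀ x : G, x * x = 1 → x⁻¹ = x := fun x hx => inv_eq_of_mul_eq_one_left hx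
  -- add to one side: first the involutions, then the others
  have side : ∀ (P Q : Set G) (p q : G) (X Y : Set G) (K : Subgroup G) (τ : Equiv.Perm G),
      AltD X Y K τ → X = {p} → (∀ x ∈ Y, x ∈ Q ∨ x⁻¹ ∈ Q) → p ∈ P → p * p = 1 →
      (∀ x ∈ P, ∀ y ∈ P, x * y = y * x) → (∀ x ∈ P, x ∉ Q ∧ x⁻¹ ∉ Q) →
      ((∀ x ∈ P, x * x = 1) ∨ 3 ≤ Nat.card (Subgroup.closure {x | x ∈ P ∧ x * x = 1})) →
      ∃ σ, AltD (Pm P) Y (K ⊔ Subgroup.closure P) σ := by
    intro P Q p q X Y K τ h hX hY hp hpp hP hdis h3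
    have hPY : ∀ x ∈ P, x ∉ Y := by
      intro x hx hxY
      rcases hY x hxY with h | h
      · exact (hdis x hx).1 h
      · exact (hdis x hx).2 h
    obtain ⟨σ1, h1⟩ := h.addSet {x | x ∈ P ∧ x * x = 1} (by
        intro b hb x hx
        rw [hX, Set.mem_singleton_iff] at hx
        rw [hx]; exact hP p hp b hb.1)
      (fun b hb c hc => hP b hb.1 c hc.1) (fun b hb => hPY b hb.1) (Or.inl fun b hb => hb.2)
    rw [hX] at h1
    obtain ⟨σ2, h2⟩ := h1.addSet P (by
        rintro b hb x (hx | hx | hx)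
        · rw [Set.mem_singleton_iff] at hx
          rw [hx]; exact hP p hp b hb
        · exact hP x hx.1 b hb
        · have := hP _ hx.1 b hb
          calc x * b = x * (b * x⁻¹) * x := by group
            _ = x * (x⁻¹ * b) * x := by rw [this]
            _ = b * x := by group) hP hPY (by
        rcases h3 with h3 | h3
        · exact Or.inl h3
        · right
          refine h3.trans (Subgroup.card_le_of_le (Subgroup.closure_mono ?_))
          exact fun x hx => Or.inr (Or.inl hx))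
    refine ⟨σ2, ?_⟩
    have e1 : ({p} : Set G) ∪ {x | x ∈ {x | x ∈ P ∧ x * x = 1} ∨ x⁻¹ ∈ {x | x ∈ P ∧ x * x = 1}} ∪
        {x | x ∈ P ∨ x⁻¹ ∈ P} = Pm P := by
      ext x
      constructor
      · rintro ((hx | hx | hx) | hx)
        · rw [Set.mem_singleton_iff] at hx
          rw [hx]; exact Or.inl hp
        · exact Or.inl hx.1
        · exact Or.inr hx.1
        · exact hx
      · intro hx
        exact Or.inr hx
    have e2 : K ⊔ Subgroup.closure {x | x ∈ P ∧ x * x = 1} ⊔ Subgroup.closure P =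
        K ⊔ Subgroup.closure P := by
      rw [sup_assoc, ← Subgroup.closure_union]
      congr 2
      ext x
      constructor
      · rintro (hx | hx)
        · exact hx.1
        · exact hx
      · intro hx
        exact Or.inr hx
    rw [e1, e2] at h2
    exact h2
  obtain ⟨σ1, h1⟩ := side P Q p q {p} {q} _ τ hτ rfl (by
    intro x hx
    rw [Set.mem_singleton_iff] at hx
    rw [hx]; exact Or.inl hq) hp hpp hP hdis hP3
  obtain ⟨σ2, h2⟩ := side Q P q p {q} (Pm P) _ σ1 h1.symm rfl (fun x hx => hx) hq hqq hQ (by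
    intro x hx
    exact ⟨fun h => (hdis x h).1 hx, fun h => (hdis _ h).2 (by rwa [inv_inv])⟩) hQ3
  refine ⟨σ2, ?_⟩
  have e : Subgroup.closure {p, q} ⊔ Subgroup.closure P ⊔ Subgroup.closure Q = ⊤ := by
    rw [eq_top_iff, ← hgen, Subgroup.closure_union]
    apply sup_le
    · exact le_sup_right.trans le_sup_left
    · exact le_sup_right
  rw [e] at h2
  exact h2.symm

/-- the terms of the listing along `σ` -/
theorem alternating_listing {X Y : Set G} {σ : Equiv.Perm G} (h : AltD X Y (⊤ : Subgroup G) σ) :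
    ∃ a : Fin (Nat.card G) → G,
      (∀ i, a i ∈ X ∪ Y) ∧
      Function.Injective (fun k : Fin (Nat.card G) => ((List.ofFn a).take (k.val + 1)).prod) ∧
      (List.ofFn a).prod = 1 ∧
      ∀ i j : Fin (Nat.card G), j.val = (i.val + 1) % Nat.card G →
        (a i ∈ X ∧ a j ∈ Y) ∨ (a i ∈ Y ∧ a j ∈ X) := by
  have hcyc0 : CycOn (X ∪ Y) Set.univ σ := by simpa using h.cyc
  have : Fintype G := Fintype.ofFinite G
  let a : Fin (Nat.card G) → G := fun i => ((σ ^ i.val) 1)⁻¹ * (σ ^ (i.val + 1)) 1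
  have hprod : ∀ k, k ≤ Nat.card G → ((List.ofFn a).take k).prod = (σ ^ k) 1 := by
    intro k
    induction k with
    | zero => intro _; simp
    | succ k ih =>
      intro hk
      have hk' : k < (List.ofFn a).length := by rw [List.length_ofFn]; omega
      rw [List.take_succ_eq_append_getElem hk', List.prod_append, ih (by omega)]
      simp only [List.getElem_ofFn, List.prod_cons, List.prod_nil, mul_one, a]
      rw [mul_inv_cancel_left]
  have hcyc : σ.IsCycleOn ((Finset.univ : Finset G) : Set G) := by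
    rw [Finset.coe_univ]
    exact ⟨Set.bijOn_univ.2 σ.bijective, fun x hx y hy => hcyc0.cyc x hx y hy⟩
  have hcard : (Finset.univ : Finset G).card = Nat.card G := by
    rw [Nat.card_eq_fintype_card]; rfl
  refine ⟨a, ?_, ?_, ?_, ?_⟩
  · intro i
    have h1 := hcyc0.step ((σ ^ i.val) 1) (Set.mem_univ _)
    change ((σ ^ i.val) 1)⁻¹ * (σ ^ (i.val + 1)) 1 ∈ X ∪ Y
    rw [pow_succ', Equiv.Perm.mul_apply]
    exact h1
  · intro i j hij
    have hij' : ((List.ofFn a).take (i.val + 1)).prod = ((List.ofFn a).take (j.val + 1)).prod := hij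
    rw [hprod _ (by omega), hprod _ (by omega)] at hij'
    rw [hcyc.pow_apply_eq_pow_apply (Finset.mem_univ _), hcard] at hij'
    have h2 : i.val ≡ j.val [MOD Nat.card G] := Nat.ModEq.add_right_cancel' 1 hij'
    apply Fin.ext
    exact Nat.ModEq.eq_of_lt_of_lt h2 i.isLt j.isLt
  · have h1 := hprod (Nat.card G) le_rfl
    rw [List.take_of_length_le (by rw [List.length_ofFn])] at h1
    rw [h1, hcyc.pow_apply_eq (Finset.mem_univ _), hcard]
  · intro i j hij
    set v := (σ ^ (i.val + 1)) 1 with hv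
    have hvj : v = (σ ^ j.val) 1 := by
      rw [hv, hcyc.pow_apply_eq_pow_apply (Finset.mem_univ _), hcard, hij]
      exact (Nat.mod_modEq _ _).symm
    have haj : a j = v⁻¹ * σ v := by
      change ((σ ^ j.val) 1)⁻¹ * (σ ^ (j.val + 1)) 1 = _
      rw [pow_succ', Equiv.Perm.mul_apply, ← hvj]
    have hai : a i = (σ⁻¹ v)⁻¹ * v := by
      change ((σ ^ i.val) 1)⁻¹ * (σ ^ (i.val + 1)) 1 = _
      have : σ⁻¹ v = (σ ^ i.val) 1 := by
        rw [Equiv.Perm.inv_eq_iff_eq, hv, pow_succ', Equiv.Perm.mul_apply]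
      rw [this]
    have key : ∀ Z : Set G, Sym Z → HasE Z σ v → a j ∈ Z ∨ a i ∈ Z := by
      intro Z hZ hE
      rcases hE with h1 | ⟨c, hc, h1⟩
      · left; rw [haj]; exact h1
      · right
        have h2 : σ⁻¹ v = v * c := by rw [Equiv.Perm.inv_eq_iff_eq, h1]
        rw [hai, h2]
        have e : (v * c)⁻¹ * v = c⁻¹ := by group
        rw [e]; exact hZ c hc
    have hX := key X h.symX (h.eX v trivial)
    have hY := key Y h.symY (h.eY v trivial)
    have hd : ∀ x, x ∈ X → x ∉ Y := fun x hx hy => Set.disjoint_left.1 h.disj hx hy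
    rcases hX with hX | hX <;> rcases hY with hY | hY
    · exact absurd hY (hd _ hX)
    · exact Or.inr ⟨hY, hX⟩
    · exact Or.inl ⟨hX, hY⟩
    · exact absurd hY (hd _ hX)

end Pool.Agent.P8H49.Ham
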