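import Pool.Agent.P8H49.Hub

/-!
Directed closed listings: the cosets of `H` are joined along involutions `u`, by the exchange of
`x → x s`, `x u → x u s'` for `x → x u s'`, `x u → x s`.
-/

namespace Pool.Agent.P8H49.Match

open Pool.Agent.R759.HC Pool.Agent.P8H49.Ham

attribute [local instance] Classical.propDecidable

variable {G : Type*} [Group G]

/-- the state of the merging process -/
structure DInv (A S' : Set G) (H L : Subgroup G) (m : G → G)
    (U : Set G) (σ : Equiv.Perm G) : Prop where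
  one : (1 : G) ∈ U
  sub : ∀ x ∈ U, x ∈ L
  right : ∀ x ∈ U, ∀ h ∈ H, x * h ∈ U
  cyc : CycOn A U σ
  av : ∀ x ∈ U, m x ∉ U → x⁻¹ * σ x ∈ S'

theorem DInv.extend [Finite G] {A S' : Set G} {H L : Subgroup G} {τ : Equiv.Perm G}
    {m γ : G → G} {U : Set G} {σ : Equiv.Perm G} {B Av : Set G}
    (h : DInv A S' H L m U σ) (hM : MData (⊥ : Subgroup G) H L B Av m γ)
    (hB : ∀ u ∈ B, u * u = 1) (hBA : ∀ u ∈ B, ∀ s ∈ S', u * s ∈ A)
    (hHL : H ≤ L) (hτ : CycOn A (H : Set G) τ)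
    (hAv : ∀ x ∈ Av, x⁻¹ * τ x ∈ S') {x : G} (hx : x ∈ U) (hmx : m x ∉ U) :
    ∃ (U' : Set G) (σ' : Equiv.Perm G), DInv A S' H L m U' σ' ∧ U ⊆ U' ∧ m x ∈ U' := by
  have hxL := h.sub x hx
  have hmxL : m x ∈ L := hM.mem x hxL
  have hne : m x ≠ x := fun h1 => hmx (by rw [h1]; exact hx)
  have hused : ∀ z, m z ≠ z → z⁻¹ * m z ∉ (⊥ : Subgroup G) := by
    intro z hz h1
    rw [Subgroup.mem_bot] at h1
    exact hz (inv_mul_eq_one.1 h1).symm
  have hmm : ∀ z ∈ L, m (m z) = z := by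
    intro z hz
    have h1 := hM.invol z hz
    rw [Subgroup.mem_bot] at h1
    exact inv_mul_eq_one.1 h1
  obtain ⟨u, huB, hu⟩ : ∃ u ∈ B, m x = x * u := by
    rcases hM.typ x hxL with h1 | h1
    · exact absurd h1 hne
    · exact h1
  have huu := hB u huB
  have hu' : u⁻¹ = u := inv_eq_of_mul_eq_one_left huu
  set y := m x with hy
  have hmy : m y = x := hmm x hxL
  have hyne : m y ≠ y := by rw [hmy]; exact fun h1 => hne h1.symm
  have hgy : y⁻¹ * γ y ∈ H := hM.gmem y hmxL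
  have hset : {w | (γ y)⁻¹ * w ∈ (H : Set G)} = {w | y⁻¹ * w ∈ H} := by
    ext w
    change (γ y)⁻¹ * w ∈ H ↔ y⁻¹ * w ∈ H
    have e : y⁻¹ * w = (y⁻¹ * γ y) * ((γ y)⁻¹ * w) := by group
    rw [e]
    exact (Subgroup.mul_mem_cancel_left H hgy).symm
  have hρ := hτ.translate (γ y)
  rw [hset] at hρ
  set ρ := Equiv.mulLeft (γ y) * τ * (Equiv.mulLeft (γ y))⁻¹ with hρdef
  have apρ : ∀ v, ρ v = γ y * τ ((γ y)⁻¹ * v) := fun v => rfl
  have hρS : ∀ z, y⁻¹ * z ∈ H → m z ≠ z → z⁻¹ * ρ z ∈ S' := by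
    intro z hz hmz
    have hzL : z ∈ L := by
      have := L.mul_mem hmxL (hHL hz)
      rwa [mul_inv_cancel_left] at this
    have h1 := hAv _ (hM.avail z hzL (hused z hmz))
    have hγ : γ z = γ y := by
      have := hM.gcon y hmxL _ hz
      rwa [mul_inv_cancel_left] at this
    rw [hγ] at h1
    rw [apρ]
    have e : z⁻¹ * (γ y * τ ((γ y)⁻¹ * z)) = ((γ y)⁻¹ * z)⁻¹ * τ ((γ y)⁻¹ * z) := by group
    rw [e]; exact h1
  have hnotU : ∀ v, y⁻¹ * v ∈ H → v ∉ U := by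
    intro v hv hvU
    apply hmx
    have := h.right _ hvU _ (H.inv_mem hv)
    have e : v * (y⁻¹ * v)⁻¹ = y := by group
    rwa [e] at this
  have hyy : y ∈ {w | y⁻¹ * w ∈ H} := by
    change y⁻¹ * y ∈ H
    rw [inv_mul_cancel]; exact H.one_mem
  have hxS : x⁻¹ * σ x ∈ S' := h.av x hx hmx
  have s1 : x⁻¹ * ρ y ∈ A := by
    have h1 := hρS y hyy hyne
    have e : x⁻¹ * ρ y = u * (y⁻¹ * ρ y) := by
      rw [hu, mul_inv_rev, hu', ← mul_assoc, ← mul_assoc, huu, one_mul]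
    rw [e]; exact hBA u huB _ h1
  have s2 : y⁻¹ * σ x ∈ A := by
    have e : y⁻¹ * σ x = u * (x⁻¹ * σ x) := by
      rw [hu, mul_inv_rev, hu', mul_assoc]
    rw [e]; exact hBA u huB _ hxS
  obtain ⟨hm, em1, em2⟩ := h.cyc.merge hρ (fun v hv hv' => hnotU v hv' hv) hx hyy rfl s1 s2
  set σ' := σ * ρ * Equiv.swap x y with hσ'
  refine ⟨U ∪ {w | y⁻¹ * w ∈ H}, σ', ⟨?_, ?_, ?_, hm, ?_⟩, Set.subset_union_left, Or.inr hyy⟩
  · exact Or.inl h.one
  · rintro v (hv | hv)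
    · exact h.sub v hv
    · have := L.mul_mem hmxL (hHL hv)
      rwa [mul_inv_cancel_left] at this
  · rintro v (hv | hv) k hk
    · exact Or.inl (h.right v hv k hk)
    · right
      change y⁻¹ * (v * k) ∈ H
      rw [← mul_assoc]; exact H.mul_mem hv hk
  · intro z hz hmz
    rcases hz with hz | hz
    · rw [em1 z hz (by
        rintro rfl
        exact hmz (Or.inr hyy))]
      exact h.av z hz (fun h1 => hmz (Or.inl h1))
    · rw [em2 z hz (by
        rintro rfl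
        rw [hmy] at hmz
        exact hmz (Or.inl hx))]
      apply hρS z hz
      intro h1
      apply hmz
      rw [h1]; exact Or.inr hz

theorem direct_aux [Finite G] {A S' : Set G} {H L : Subgroup G} {τ : Equiv.Perm G}
    {m γ : G → G} {B Av : Set G}
    (hM : MData (⊥ : Subgroup G) H L B Av m γ)
    (hB : ∀ u ∈ B, u * u = 1) (hBA : ∀ u ∈ B, ∀ s ∈ S', u * s ∈ A)
    (hHL : H ≤ L) (hτ : CycOn A (H : Set G) τ)
    (hAv : ∀ x ∈ Av, x⁻¹ * τ x ∈ S') :
    ∀ (n : ℕ) (U : Set G) (σ : Equiv.Perm G), DInv A S' H L m U σ →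
      ((L : Set G) \ U).ncard = n → ∃ σ, DInv A S' H L m (L : Set G) σ := by
  intro n
  induction n using Nat.strong_induction_on with
  | _ n ih =>
    intro U σ h hn
    by_cases hUL : ∀ x ∈ L, x ∈ U
    · have : U = (L : Set G) := Set.Subset.antisymm h.sub hUL
      exact ⟨σ, this ▸ h⟩
    obtain ⟨x, hx, hmx⟩ : ∃ x ∈ U, m x ∉ U := by
      by_contra hno
      push Not at hno
      apply hUL
      exact hM.conn U h.right (fun x _ hx => hno x hx) 1 L.one_mem h.one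
    obtain ⟨U', σ', h1, h2, h3⟩ := h.extend hM hB hBA hHL hτ hAv hx hmx
    refine ih _ ?_ U' σ' h1 rfl
    rw [← hn]
    apply Set.ncard_lt_ncard _ (Set.toFinite _)
    refine ⟨fun y hy => ⟨hy.1, fun h => hy.2 (h2 h)⟩, ?_⟩
    intro hsub
    exact (hsub ⟨h1.sub _ h3, hmx⟩ : m x ∈ (L : Set G) \ U').2 h3

theorem direct_of_match [Finite G] {A S' : Set G} {H L : Subgroup G} {τ : Equiv.Perm G}
    {m γ : G → G} {B Av : Set G}
    (hM : MData (⊥ : Subgroup G) H L B Av m γ)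
    (hB : ∀ u ∈ B, u * u = 1) (hBA : ∀ u ∈ B, ∀ s ∈ S', u * s ∈ A)
    (hHL : H ≤ L) (hτ : CycOn A (H : Set G) τ)
    (hAv : ∀ x ∈ Av, x⁻¹ * τ x ∈ S') : ∃ σ, CycOn A (L : Set G) σ := by
  have hg1 : γ 1 ∈ H := by
    have := hM.gmem 1 (Subgroup.one_mem _)
    rwa [inv_one, one_mul] at this
  have hgH : ∀ x ∈ H, γ x = γ 1 := by
    intro x hx
    have := hM.gcon 1 (Subgroup.one_mem _) x hx
    rwa [one_mul] at this
  have hstart : DInv A S' H L m (H : Set G)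
      (Equiv.mulLeft (γ 1) * τ * (Equiv.mulLeft (γ 1))⁻¹) := by
    refine ⟨H.one_mem, fun x hx => hHL hx, fun x hx k hk => H.mul_mem hx hk, ?_, ?_⟩
    · have := hτ.translate (γ 1)
      have e : {x | (γ 1)⁻¹ * x ∈ (H : Set G)} = (H : Set G) := by
        ext x
        exact Subgroup.mul_mem_cancel_left H (H.inv_mem hg1)
      rwa [e] at this
    · intro x hx hmx
      have hne : x⁻¹ * m x ∉ (⊥ : Subgroup G) := by
        intro h1
        rw [Subgroup.mem_bot] at h1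
        apply hmx
        have : m x = x := (inv_mul_eq_one.1 h1).symm
        rw [this]; exact hx
      have h1 := hAv _ (hM.avail x (hHL hx) hne)
      rw [hgH x hx] at h1
      have e : x⁻¹ * (Equiv.mulLeft (γ 1) * τ * (Equiv.mulLeft (γ 1))⁻¹) x =
          ((γ 1)⁻¹ * x)⁻¹ * τ ((γ 1)⁻¹ * x) := by
        change x⁻¹ * (γ 1 * τ ((γ 1)⁻¹ * x)) = _
        group
      rw [e]; exact h1
  obtain ⟨σ, hσ⟩ := direct_aux hM hB hBA hHL hτ hAv _ _ _ hstart rfl
  exact ⟨σ, hσ.cyc⟩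

/-- **The directed theorem.** -/
theorem direct [Finite G] {A S' B : Set G} {H : Subgroup G} {τ : Equiv.Perm G}
    (hB : ∀ u ∈ B, u * u = 1) (hBA : ∀ u ∈ B, ∀ s ∈ S', u * s ∈ A)
    (hτ : CycOn A (H : Set G) τ)
    (hcount : 3 * ({x | x ∈ H ∧ x⁻¹ * τ x ∉ S'}.ncard + 2) ≤ Nat.card H) :
    ∃ σ, CycOn A ((H ⊔ Subgroup.closure B : Subgroup G) : Set G) σ := by
  let Av : Set G := {x | x ∈ H ∧ x⁻¹ * τ x ∈ S'}
  have hmiss : {x | x ∈ H ∧ x ∉ Av} = {x | x ∈ H ∧ x⁻¹ * τ x ∉ S'} := by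
    ext x
    constructor
    · rintro ⟨h1, h2⟩
      exact ⟨h1, fun h => h2 ⟨h1, h⟩⟩
    · rintro ⟨h1, h2⟩
      exact ⟨h1, fun h => h2 h.2⟩
  obtain ⟨m, γ, hM⟩ := match_set (F := (⊥ : Subgroup G)) (H := H) (B := B) (Av := Av) bot_le
    (by
      intro x hx f hf
      rw [Subgroup.mem_bot] at hf
      rw [hf, mul_one]; exact hx)
    (by
      rw [hmiss, Subgroup.card_bot]; exact hcount)
    (by
      intro u hu
      refine ⟨by rw [hB u hu]; exact Subgroup.one_mem _, ?_⟩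
      intro f hf
      rw [Subgroup.mem_bot] at hf ⊢
      rw [hf]; group)
  exact direct_of_match hM hB hBA le_sup_left hτ (fun x hx => hx.2)

end Pool.Agent.P8H49.Match
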