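import Pool.Agent.P8H49.HamStep

/-!
Chains of generators, each of which commutes with all but at most one of the earlier ones.
-/

namespace Pool.Agent.P8H49.Ham

open Pool.Agent.R759.HC

attribute [local instance] Classical.propDecidable

universe u

variable {G : Type u} [Group G]

/-- `g` commutes with all elements of `X`, except possibly one element `z` with `z² = 1`; and
if there is such an exception, then `g² ∈ ⟨X⟩` or the elements of `X` which commute with `g`
generate a group with at least three elements. -/
def NearlyCommutes (X : Set G) (g : G) : Prop :=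
  (∃ z, z * z = 1 ∧ ∀ x ∈ X, x ≠ z → x * g = g * x) ∧
  ((∀ x ∈ X, x * g = g * x) ∨ g * g ∈ Subgroup.closure X ∨
    3 ≤ Nat.card (Subgroup.closure {x | x ∈ X ∧ x * g = g * x}))

/-- the generators in use, newest first -/
def bef (T : Set G) (l : List G) : Set G := {x | x ∈ T ∨ x ∈ l}

/-- the generators in use and their inverses -/
def pm (T : Set G) (l : List G) : Set G := {x | x ∈ T ∨ x ∈ l ∨ x⁻¹ ∈ l}

theorem pm_symm {T : Set G} (hT : ∀ x ∈ T, x⁻¹ ∈ T) (l : List G) : ∀ x ∈ pm T l, x⁻¹ ∈ pm T l := by
  rintro x (h | h | h)
  · exact Or.inl (hT x h)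
  · right; right; rwa [inv_inv]
  · right; left; exact h

theorem bef_sub_pm (T : Set G) (l : List G) : bef T l ⊆ pm T l := by
  rintro x (h | h)
  · exact Or.inl h
  · exact Or.inr (Or.inl h)

theorem pm_sub_closure (T : Set G) (l : List G) : ∀ x ∈ pm T l, x ∈ Subgroup.closure (bef T l) := by
  rintro x (h | h | h)
  · exact Subgroup.subset_closure (Or.inl h)
  · exact Subgroup.subset_closure (Or.inr h)
  · have := (Subgroup.closure (bef T l)).inv_mem (Subgroup.subset_closure (Or.inr h))
    rwa [inv_inv] at this

theorem closure_pm (T : Set G) (l : List G) :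
    Subgroup.closure (pm T l) = Subgroup.closure (bef T l) := by
  apply le_antisymm
  · rw [Subgroup.closure_le]
    exact pm_sub_closure T l
  · exact Subgroup.closure_mono (bef_sub_pm T l)

theorem closure_cons (T : Set G) (b : G) (l : List G) :
    Subgroup.closure (bef T (b :: l)) = Subgroup.closure (bef T l) ⊔ Subgroup.zpowers b := by
  apply le_antisymm
  · rw [Subgroup.closure_le]
    rintro x (h | h)
    · exact (le_sup_left : Subgroup.closure (bef T l) ≤ _) (Subgroup.subset_closure (Or.inl h))
    · rcases List.mem_cons.1 h with rfl | h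
      · exact (le_sup_right : _ ≤ Subgroup.closure (bef T l) ⊔ Subgroup.zpowers x)
          (Subgroup.mem_zpowers x)
      · exact (le_sup_left : Subgroup.closure (bef T l) ≤ _) (Subgroup.subset_closure (Or.inr h))
  · apply sup_le
    · apply Subgroup.closure_mono
      rintro x (h | h)
      · exact Or.inl h
      · exact Or.inr (List.mem_cons_of_mem _ h)
    · rw [Subgroup.zpowers_le]
      exact Subgroup.subset_closure (Or.inr (List.mem_cons_self))

theorem pm_mono_cons (T : Set G) (b : G) (l : List G) : pm T l ⊆ pm T (b :: l) := by
  rintro x (h | h | h)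
  · exact Or.inl h
  · exact Or.inr (Or.inl (List.mem_cons_of_mem _ h))
  · exact Or.inr (Or.inr (List.mem_cons_of_mem _ h))

theorem cycOn_mono {A B U : Set G} {σ : Equiv.Perm G} (h : CycOn B U σ) (hBA : B ⊆ A) :
    CycOn A U σ :=
  ⟨h.fix, h.maps, fun x hx => hBA (h.step x hx), h.cyc⟩

theorem inv_comm {c b : G} (h : c * b = b * c) : c⁻¹ * b = b * c⁻¹ := by
  calc c⁻¹ * b = c⁻¹ * (b * c) * c⁻¹ := by group
    _ = c⁻¹ * (c * b) * c⁻¹ := by rw [h]
    _ = b * c⁻¹ := by group

variable [Finite G]

/-- at most two elements -/
theorem small_cyc {B : Set G} (hne : B.Nonempty) (h2 : Nat.card (Subgroup.closure B) ≤ 2) :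
    ∃ τ : Equiv.Perm G, CycOn B ((Subgroup.closure B : Subgroup G) : Set G) τ := by
  obtain ⟨x, hx, hxG⟩ : ∃ x ∈ B, Subgroup.zpowers x = Subgroup.closure B := by
    by_cases h1 : ∃ x ∈ B, x ≠ 1
    · obtain ⟨x, hx, hx1⟩ := h1
      refine ⟨x, hx, ?_⟩
      have hle : Subgroup.zpowers x ≤ Subgroup.closure B := by
        rw [Subgroup.zpowers_le]; exact Subgroup.subset_closure hx
      apply Subgroup.eq_of_le_of_card_ge hle
      have h5 : Nat.card (Subgroup.zpowers x) ≠ 1 := by
        rw [Nat.card_zpowers]
        intro h6
        exact hx1 (orderOf_eq_one_iff.1 h6)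
      have h6 : 0 < Nat.card (Subgroup.zpowers x) := Nat.card_pos
      omega
    · push Not at h1
      obtain ⟨x, hx⟩ := hne
      refine ⟨x, hx, ?_⟩
      apply le_antisymm
      · rw [Subgroup.zpowers_le]; exact Subgroup.subset_closure hx
      · rw [Subgroup.closure_le]
        intro y hy
        rw [h1 y hy]
        exact Subgroup.one_mem _
  obtain ⟨τ, hτ, _⟩ := cyc_zpowers hx
  rw [hxG] at hτ
  exact ⟨τ, hτ⟩

/-- a subgroup with at most two elements, of which `x ≠ 1` is one -/
theorem two_elems {K : Subgroup G} (h2 : Nat.card K ≤ 2) {x : G} (hx : x ∈ K) (hx1 : x ≠ 1) :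
    ∀ y ∈ K, y = 1 ∨ y = x := by
  intro y hy
  by_contra hno
  push Not at hno
  have hsub : ({1, x, y} : Set G) ⊆ (K : Set G) := by
    rintro w (rfl | rfl | rfl)
    · exact K.one_mem
    · exact hx
    · exact hy
  have h4 : ({1, x, y} : Set G).ncard = 3 :=
    Set.ncard_eq_three.2 ⟨1, x, y, fun h => hx1 h.symm, fun h => hno.1 h.symm,
      fun h => hno.2 h.symm, rfl⟩
  have h5 := Set.ncard_le_ncard hsub (Set.toFinite _)
  have h6 : (K : Set G).ncard = Nat.card K := rfl
  omega

/-- the list is such that each element nearly commutes with the later ones -/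
def ChainOK (T : Set G) : List G → Prop
  | [] => True
  | b :: l => NearlyCommutes (bef T l) b ∧ ChainOK T l

theorem chain {T : Set G} (hTs : ∀ x ∈ T, x⁻¹ ∈ T)
    (hT : 3 ≤ Nat.card (Subgroup.closure T) →
      ∃ τ : Equiv.Perm G, CycOn T ((Subgroup.closure T : Subgroup G) : Set G) τ) (l : List G)
    (hl : ChainOK T l) (hne : (bef T l).Nonempty) :
    ∃ τ : Equiv.Perm G, CycOn (pm T l) ((Subgroup.closure (bef T l) : Subgroup G) : Set G) τ := by
  induction l with
  | nil =>
    have e1 : bef T [] = T := by ext x; simp [bef]
    have e2 : pm T [] = T := by ext x; simp [pm]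
    rw [e1] at hne ⊢
    rw [e2]
    by_cases h3 : 3 ≤ Nat.card (Subgroup.closure T)
    · exact hT h3
    · exact small_cyc hne (by omega)
  | cons b l ih =>
    obtain ⟨⟨⟨z, hz, hzc⟩, hcase⟩, hl'⟩ := hl
    have hbpm : b ∈ pm T (b :: l) := Or.inr (Or.inl List.mem_cons_self)
    have hsymm' := pm_symm hTs (b :: l)
    by_cases hsmall : Nat.card (Subgroup.closure (bef T (b :: l))) ≤ 2
    · rw [← closure_pm] at hsmall ⊢
      exact small_cyc ⟨b, hbpm⟩ hsmall
    have h3' : 3 ≤ Nat.card (Subgroup.closure (bef T (b :: l))) := by omega
    by_cases hne' : (bef T l).Nonempty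
    swap
    · -- only `b`
      have e0 : bef T l = ∅ := Set.not_nonempty_iff_eq_empty.1 hne'
      rw [closure_cons, e0, Subgroup.closure_empty, bot_sup_eq]
      obtain ⟨τ, hτ, _⟩ := cyc_zpowers hbpm
      exact ⟨τ, hτ⟩
    obtain ⟨τ, hτ⟩ := ih hl' hne'
    by_cases hK3 : 3 ≤ Nat.card (Subgroup.closure (bef T l))
    · -- the main case
      rw [closure_cons]
      refine step hsymm' (pm_symm hTs l) (pm_mono_cons T b l) (pm_sub_closure T l) hbpm hK3 z ?_ ?_
        ⟨τ, hτ⟩
      · rintro c (h | h | h) hcz
        · exact hzc c (Or.inl h) hcz
        · exact hzc c (Or.inr h) hcz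
        · by_cases hcz' : c⁻¹ = z
          · exfalso
            apply hcz
            have h4 : z⁻¹ = z := inv_eq_of_mul_eq_one_left hz
            rw [← inv_inv c, hcz', h4]
          · have := inv_comm (hzc _ (Or.inr h) hcz')
            rwa [inv_inv] at this
      · rcases hcase with hall | hbb | h3
        · right
          refine hK3.trans (Subgroup.card_le_of_le ?_)
          rw [Subgroup.closure_le]
          intro x hx
          exact Subgroup.subset_closure ⟨bef_sub_pm T l hx, hall x hx⟩
        · exact Or.inl hbb
        · right
          refine h3.trans (Subgroup.card_le_of_le ?_)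
          apply Subgroup.closure_mono
          rintro x ⟨h1, h2⟩
          exact ⟨bef_sub_pm T l h1, h2⟩
    · -- `K` has at most two elements
      have hK2 : Nat.card (Subgroup.closure (bef T l)) ≤ 2 := by omega
      by_cases hall : ∀ x ∈ bef T l, x * b = b * x
      · -- everything commutes
        have hKc : ∀ x ∈ Subgroup.closure (bef T l), ∀ y ∈ Subgroup.closure (bef T l),
            x * y = y * x := by
          intro x hx y hy
          by_cases hx1 : x = 1
          · simp [hx1]
          · rcases two_elems hK2 hx hx1 y hy with rfl | rfl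
            · simp
            · rfl
        have hKb : ∀ x ∈ Subgroup.closure (bef T l), x * b = b * x := by
          intro x hx
          induction hx using Subgroup.closure_induction with
          | mem x hx => exact hall x hx
          | one => simp
          | mul x y _ _ hx hy => rw [mul_assoc, hy, ← mul_assoc, hx, mul_assoc]
          | inv x _ hx => exact inv_comm hx
        have hcls : ∀ x ∈ pm T (b :: l), x = b ∨ x = b⁻¹ ∨ x ∈ Subgroup.closure (bef T l) := by
          rintro x (h | h | h)
          · exact Or.inr (Or.inr (Subgroup.subset_closure (Or.inl h)))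
          · rcases List.mem_cons.1 h with h | h
            · exact Or.inl h
            · exact Or.inr (Or.inr (Subgroup.subset_closure (Or.inr h)))
          · rcases List.mem_cons.1 h with h | h
            · right; left; rw [← h, inv_inv]
            · exact Or.inr (Or.inr (pm_sub_closure T l x (Or.inr (Or.inr h))))
        have hcomm : ∀ x ∈ pm T (b :: l), ∀ y ∈ pm T (b :: l), x * y = y * x := by
          intro x hx y hy
          rcases hcls x hx with rfl | rfl | h <;> rcases hcls y hy with rfl | rfl | h'
          · rfl
          · simp
          · exact (hKb y h').symm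
          · simp
          · rfl
          · exact inv_comm (hKb y h').symm
          · exact hKb x h
          · exact (inv_comm (hKb x h).symm).symm
          · exact hKc x h y h'
        obtain ⟨τ', hτ'⟩ := self_normal_cyc (pm T (b :: l)) hsymm' (by
          intro h hh s hs
          rw [hcomm h hh s hs, mul_inv_cancel_right]
          exact hs) (by rw [closure_pm]; exact h3')
        rw [closure_pm] at hτ'
        exact ⟨τ', hτ'⟩
      · push Not at hall
        obtain ⟨x, hx, hxb⟩ := hall
        have hx1 : x ≠ 1 := by rintro rfl; exact hxb (by simp)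
        have hxK : x ∈ Subgroup.closure (bef T l) := Subgroup.subset_closure hx
        have hel := two_elems hK2 hxK hx1
        have hbb : b * b = 1 := by
          rcases hcase with h | h | h
          · exact absurd (h x hx) hxb
          · rcases hel _ h with h' | h'
            · exact h'
            · exfalso
              apply hxb
              rw [← h', mul_assoc]
          · exfalso
            have h5 : Nat.card (Subgroup.closure {x | x ∈ bef T l ∧ x * b = b * x}) ≤
                Nat.card (Subgroup.closure (bef T l)) := by
              apply Subgroup.card_le_of_le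
              apply Subgroup.closure_mono
              exact fun x hx => hx.1
            omega
        have hxx : x * x = 1 := by
          rcases hel _ (Subgroup.mul_mem _ hxK hxK) with h' | h'
          · exact h'
          · exfalso
            apply hx1
            exact mul_left_cancel (h'.trans (mul_one x).symm)
        have hb1 : b ≠ 1 := by rintro rfl; exact hxb (by simp)
        have hxb' : x ≠ b := by rintro rfl; exact hxb rfl
        have hxpm : x ∈ pm T (b :: l) := pm_mono_cons T b l (bef_sub_pm T l hx)
        obtain ⟨τ', hτ'⟩ := pair_cyc hxpm hbpm ⟨hx1, hb1, hxb', Or.inr ⟨hxx, hbb⟩⟩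
        have e : Subgroup.closure ({x, b} : Set G) = Subgroup.closure (bef T (b :: l)) := by
          apply le_antisymm
          · rw [Subgroup.closure_le]
            rintro y (rfl | hy)
            · exact pm_sub_closure T _ _ hxpm
            · rw [Set.mem_singleton_iff] at hy
              rw [hy]
              exact pm_sub_closure T _ _ hbpm
          · rw [closure_cons]
            apply sup_le
            · intro y hy
              rcases hel y hy with rfl | rfl
              · exact Subgroup.one_mem _
              · exact Subgroup.subset_closure (by simp)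
            · rw [Subgroup.zpowers_le]
              exact Subgroup.subset_closure (by simp)
        rw [e] at hτ'
        exact ⟨τ', hτ'⟩

end Pool.Agent.P8H49.Ham
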