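import Pool.Agent.P8H49.HamChain
import Mathlib.Combinatorics.SimpleGraph.Acyclic

/-!
Generating sets whose non-commuting graph is a forest.
-/

namespace Pool.Agent.P8H49.Ham

open Pool.Agent.R759.HC

attribute [local instance] Classical.propDecidable

universe u

/-- a finite nonempty acyclic graph has a vertex with at most one neighbour -/
theorem exists_leaf {V : Type u} [Finite V] [Nonempty V] (Γ : SimpleGraph V) (h : Γ.IsAcyclic) :
    ∃ v z : V, ∀ w, Γ.Adj v w → w = z := by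
  obtain ⟨u, v, p, hp, hmax⟩ := SimpleGraph.Walk.exists_isPath_forall_isPath_length_le_length Γ
  refine ⟨v, p.penultimate, fun w hadj => ?_⟩
  apply h.eq_penultimate_of_adj_end hp hadj
  by_contra hw
  have h1 := hmax _ _ _ (hp.concat hw hadj)
  rw [SimpleGraph.Walk.length_concat] at h1
  omega

variable {G : Type u} [Group G] [Finite G]

theorem chain_inv : ∀ (n : ℕ) (S : Set G), S.ncard = n → (∀ x ∈ S, x * x = 1) →
    (∃ Γ : SimpleGraph S, (∀ x y : S, (x : G) * y ≠ y * x → Γ.Adj x y) ∧ Γ.IsAcyclic) →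
    ∃ l : List G, (∀ x, x ∈ l ↔ x ∈ S) ∧ ChainOK ∅ l := by
  intro n
  induction n with
  | zero =>
    intro S hS _ _
    rw [Set.ncard_eq_zero] at hS
    refine ⟨[], ?_, trivial⟩
    intro x
    simp [hS]
  | succ n ih =>
    intro S hS hinv ⟨Γ, hΓ, hac⟩
    have hne : S.Nonempty := by
      rw [← Set.ncard_pos]; omega
    have : Nonempty S := hne.to_subtype
    obtain ⟨v, z, hvz⟩ := exists_leaf Γ hac
    obtain ⟨l, hl, hc⟩ := ih (S \ {(v : G)}) (by
      rw [Set.ncard_sdiff_singleton_of_mem v.2, hS]; rfl) (fun x hx => hinv x hx.1)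
      ⟨Γ.comap (fun x : (S \ {(v : G)} : Set G) => (⟨x, x.2.1⟩ : S)), by
        intro x y hxy
        exact hΓ _ _ hxy, by
        refine hac.comap (f := ⟨fun x : (S \ {(v : G)} : Set G) => (⟨x, x.2.1⟩ : S),
          fun h => h⟩) ?_
        intro x y hxy
        exact Subtype.ext (congrArg (fun w : S => (w : G)) hxy)⟩
    refine ⟨v :: l, ?_, ⟨⟨z, hinv z z.2, ?_⟩, Or.inr (Or.inl ?_)⟩, hc⟩
    · intro x
      rw [List.mem_cons, hl, Set.mem_sdiff, Set.mem_singleton_iff]
      constructor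
      · rintro (rfl | h)
        · exact v.2
        · exact h.1
      · intro h
        by_cases hx : x = v
        · exact Or.inl hx
        · exact Or.inr ⟨h, hx⟩
    · intro x hx hxz
      have hxS : x ∈ S := by
        rcases hx with h | h
        · exact absurd h (Set.notMem_empty x)
        · exact ((hl x).1 h).1
      by_contra hno
      apply hxz
      have := hvz ⟨x, hxS⟩ (hΓ _ _ (fun h => hno h.symm))
      exact congrArg (fun w : S => (w : G)) this
    · rw [hinv v v.2]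
      exact Subgroup.one_mem _

theorem chain_mixed (S : Set G) (l0 : List G) (hl0 : ∀ x, x ∈ l0 ↔ x ∈ S ∧ x * x = 1)
    (hc0 : ChainOK ∅ l0)
    (hS : ∀ x ∈ S, x * x ≠ 1 → ∀ y ∈ S, x * y ≠ y * x → y * y = 1 ∧
      (∀ w ∈ S, x * w ≠ w * x → w = y) ∧
      3 ≤ Nat.card (Subgroup.closure {w | w ∈ S ∧ w * w = 1 ∧ w ≠ y})) :
    ∀ l : List G, (∀ x ∈ l, x ∈ S ∧ x * x ≠ 1) → ChainOK ∅ (l ++ l0) := by
  intro l
  induction l with
  | nil => intro _; exact hc0
  | cons b l ih =>
    intro hl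
    have hb := hl b List.mem_cons_self
    have hsub : ∀ x ∈ bef ∅ (l ++ l0), x ∈ S := by
      rintro x (h | h)
      · exact absurd h (Set.notMem_empty x)
      · rcases List.mem_append.1 h with h | h
        · exact (hl x (List.mem_cons_of_mem _ h)).1
        · exact ((hl0 x).1 h).1
    refine ⟨?_, ih (fun x hx => hl x (List.mem_cons_of_mem _ hx))⟩
    change NearlyCommutes (bef ∅ (l ++ l0)) b
    by_cases hall : ∀ x ∈ bef ∅ (l ++ l0), x * b = b * x
    · exact ⟨⟨1, by simp, fun x hx _ => hall x hx⟩, Or.inl hall⟩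
    · push Not at hall
      obtain ⟨y, hy, hyb⟩ := hall
      obtain ⟨h1, h2, h3⟩ := hS b hb.1 hb.2 y (hsub y hy) (fun h => hyb h.symm)
      refine ⟨⟨y, h1, ?_⟩, Or.inr (Or.inr ?_)⟩
      · intro x hx hxy
        by_contra hno
        exact hxy (h2 x (hsub x hx) (fun h => hno h.symm))
      · refine h3.trans (Subgroup.card_le_of_le ?_)
        apply Subgroup.closure_mono
        rintro w ⟨hw, hww, hwy⟩
        refine ⟨Or.inr (List.mem_append_right _ ((hl0 w).2 ⟨hw, hww⟩)), ?_⟩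
        by_contra hno
        exact hwy (h2 w hw (fun h => hno h.symm))

theorem chain_forest (S : Set G) (Γ : SimpleGraph S)
    (hΓ : ∀ x y : S, (x : G) * y ≠ y * x → Γ.Adj x y) (hac : Γ.IsAcyclic)
    (hS : ∀ x ∈ S, x * x ≠ 1 → ∀ y ∈ S, x * y ≠ y * x → y * y = 1 ∧
      (∀ w ∈ S, x * w ≠ w * x → w = y) ∧
      3 ≤ Nat.card (Subgroup.closure {w | w ∈ S ∧ w * w = 1 ∧ w ≠ y})) :
    ∃ l : List G, (∀ x, x ∈ l ↔ x ∈ S) ∧ ChainOK ∅ l := by
  obtain ⟨l0, hl0, hc0⟩ := chain_inv _ {x | x ∈ S ∧ x * x = 1} rfl (fun x hx => hx.2)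
    ⟨Γ.comap (fun x : {x | x ∈ S ∧ x * x = 1} => (⟨x, x.2.1⟩ : S)), by
      intro x y hxy
      exact hΓ _ _ hxy, by
      refine hac.comap (f := ⟨fun x : {x | x ∈ S ∧ x * x = 1} => (⟨x, x.2.1⟩ : S),
        fun h => h⟩) ?_
      intro x y hxy
      exact Subtype.ext (congrArg (fun w : S => (w : G)) hxy)⟩
  have hfin : {x | x ∈ S ∧ x * x ≠ 1}.Finite := Set.toFinite _
  refine ⟨hfin.toFinset.toList ++ l0, ?_, chain_mixed S l0 (fun x => hl0 x) hc0 hS _ ?_⟩
  · intro x
    rw [List.mem_append, Finset.mem_toList, Set.Finite.mem_toFinset, hl0]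
    simp only [Set.mem_ofPred_eq]
    tauto
  · intro x hx
    rw [Finset.mem_toList, Set.Finite.mem_toFinset] at hx
    exact hx

end Pool.Agent.P8H49.Ham
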