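import Pool.Agent.R759.HCPair

/-!
From a closed listing of a subgroup to a cyclic permutation.
-/

namespace Pool.Agent.P8H49.Ham

open Pool.Agent.R759.HC

attribute [local instance] Classical.propDecidable

universe u

theorem cyc_of_listing {G : Type u} [Group G] [Finite G] (A : Set G) (H : Subgroup G)
    (a : Fin (Nat.card H) → G)
    (ha : (∀ i, a i ∈ A ∧ a i ∈ H) ∧
      Function.Injective (fun k : Fin (Nat.card H) => ((List.ofFn a).take (k.val + 1)).prod) ∧
      (List.ofFn a).prod = 1) :
    ∃ τ : Equiv.Perm G, CycOn A (H : Set G) τ := by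
  obtain ⟨h1, h2, h3⟩ := ha
  have hm : 0 < Nat.card H := Nat.card_pos
  have : NeZero (Nat.card H) := ⟨hm.ne'⟩
  let m := Nat.card H
  -- partial products, indexed so that `s k` is the product of the first `k` terms
  let s : Fin (Nat.card H) → G := fun k => ((List.ofFn a).take k.val).prod
  have sH : ∀ k, ((List.ofFn a).take k).prod ∈ H := by
    intro k
    apply Subgroup.list_prod_mem
    intro x hx
    have := List.mem_of_mem_take hx
    rw [List.mem_ofFn] at this
    obtain ⟨i, rfl⟩ := this
    exact (h1 i).2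
  have s0 : s 0 = 1 := by simp [s]
  have full : ((List.ofFn a).take (Nat.card H)).prod = 1 := by
    rw [List.take_of_length_le (by rw [List.length_ofFn])]
    exact h3
  have sstep : ∀ k : Fin (Nat.card H), ((List.ofFn a).take (k.val + 1)).prod = s k * a k := by
    intro k
    have hk : k.val < (List.ofFn a).length := by rw [List.length_ofFn]; exact k.isLt
    rw [List.take_succ_eq_append_getElem hk, List.prod_append]
    simp [s]
  have snext : ∀ k : Fin (Nat.card H), s (k + 1) = s k * a k := by
    intro k
    rw [← sstep]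
    by_cases hk : k.val + 1 < Nat.card H
    · have : (k + 1).val = k.val + 1 := by
        rw [Fin.val_add, Fin.val_one', Nat.add_mod_mod, Nat.mod_eq_of_lt hk]
      simp only [s, this]
    · have hk' : k.val + 1 = Nat.card H := by omega
      have : (k + 1).val = 0 := by
        rw [Fin.val_add, Fin.val_one', Nat.add_mod_mod, hk', Nat.mod_self]
      simp only [s, this, hk', full]
      simp
  have sinj : Function.Injective s := by
    have e : ∀ k : Fin (Nat.card H), s (k + 1) = ((List.ofFn a).take (k.val + 1)).prod := by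
      intro k; rw [snext, sstep]
    intro i j hij
    have hi : s (i - 1 + 1) = s (j - 1 + 1) := by simpa using hij
    rw [e, e] at hi
    have := h2 hi
    exact sub_left_injective this
  let S : Fin (Nat.card H) → H := fun k => ⟨s k, sH k.val⟩
  have Sinj : Function.Injective S := fun i j hij => sinj (congrArg Subtype.val hij)
  have Sbij : Function.Bijective S :=
    (Nat.bijective_iff_injective_and_card S).2 ⟨Sinj, by rw [Nat.card_eq_fintype_card, Fintype.card_fin]⟩
  let E : Fin (Nat.card H) ≃ H := Equiv.ofBijective S Sbij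
  let τ0 : Equiv.Perm H := (E.symm.trans (Equiv.addRight (1 : Fin (Nat.card H)))).trans E
  have hτ0 : ∀ k, τ0 (E k) = E (k + 1) := by
    intro k
    simp [τ0]
  have hE : ∀ k, ((E k : H) : G) = s k := fun k => rfl
  let τ : Equiv.Perm G := Equiv.Perm.ofSubtype τ0
  have ht1 : ∀ x (hx : x ∈ H), τ x = τ0 ⟨x, hx⟩ := by
    intro x hx
    exact Equiv.Perm.ofSubtype_apply_of_mem τ0 hx
  have ht2 : ∀ x, x ∉ H → τ x = x := by
    intro x hx
    exact Equiv.Perm.ofSubtype_apply_of_not_mem τ0 hx
  have htE : ∀ k, τ (s k) = s (k + 1) := by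
    intro k
    rw [ht1 (s k) (sH k.val)]
    have : (⟨s k, sH k.val⟩ : H) = E k := rfl
    rw [this, hτ0]
    exact hE _
  have hsurj : ∀ x ∈ H, ∃ k, x = s k := by
    intro x hx
    obtain ⟨k, hk⟩ := Sbij.2 ⟨x, hx⟩
    exact ⟨k, (congrArg Subtype.val hk).symm⟩
  refine ⟨τ, ⟨fun x hx => ht2 x hx, ?_, ?_, ?_⟩⟩
  · intro x hx
    obtain ⟨k, rfl⟩ := hsurj x hx
    rw [htE]
    exact sH _
  · intro x hx
    obtain ⟨k, rfl⟩ := hsurj x hx
    rw [htE, snext, inv_mul_cancel_left]
    exact (h1 k).1
  · have base : ∀ n : ℕ, ∀ hn : n < Nat.card H, τ.SameCycle (s 0) (s ⟨n, hn⟩) := by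
      intro n
      induction n with
      | zero => intro hn; exact Equiv.Perm.SameCycle.refl _ _
      | succ n ih =>
        intro hn
        have h4 := ih (by omega)
        have h5 : (⟨n + 1, hn⟩ : Fin (Nat.card H)) = ⟨n, by omega⟩ + 1 := by
          apply Fin.ext
          rw [Fin.val_add, Fin.val_one', Nat.add_mod_mod, Nat.mod_eq_of_lt hn]
        rw [h5, ← htE]
        exact Equiv.Perm.sameCycle_apply_right.2 h4
    intro x hx y hy
    obtain ⟨k, rfl⟩ := hsurj x hx
    obtain ⟨l, rfl⟩ := hsurj y hy
    exact (base k.val k.isLt).symm.trans (base l.val l.isLt)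

end Pool.Agent.P8H49.Ham
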