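import Pool.Agent.R759.HCPair

/-!
Adding one generator to a closed listing of a subgroup: the new generator commutes with all but at
most one of the generators in use, and this one is an involution.
-/

namespace Pool.Agent.P8H49.Ham

open Pool.Agent.R759.HC

attribute [local instance] Classical.propDecidable

variable {G : Type*} [Group G]

/-- `U` is a union of left cosets of `K`, `σ` runs once around `U` and agrees inside each coset with
a cycle of this coset, outside of the positions in `P` and `M` -/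
structure Inv (A B : Set G) (K L : Subgroup G) (b : G) (U : Set G) (σ : Equiv.Perm G)
    (P M : Set G) : Prop where
  one : (1 : G) ∈ U
  sub : ∀ x ∈ U, x ∈ L
  right : ∀ x ∈ U, ∀ k ∈ K, x * k ∈ U
  cyc : CycOn A U σ
  coset : ∀ x ∈ U, ∃ ρ : Equiv.Perm G, CycOn B {y | x⁻¹ * y ∈ K} ρ ∧
    ∀ y, x⁻¹ * y ∈ K → y ∉ P → y ∉ M → σ y = ρ y
  posU : ∀ x ∈ P, x ∈ U
  negU : ∀ x ∈ M, x ∈ U
  pos : ∀ x ∈ P, x * b ∈ U
  neg : ∀ x ∈ M, x * b⁻¹ ∈ U
  posI : ∀ x ∈ P, ∀ y ∈ P, x⁻¹ * y ∈ K → (x * b)⁻¹ * (y * b) ∈ K → x = y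
  negI : ∀ x ∈ M, ∀ y ∈ M, x⁻¹ * y ∈ K → (x * b⁻¹)⁻¹ * (y * b⁻¹) ∈ K → x = y

theorem Inv.swap {A B : Set G} {K L : Subgroup G} {b : G} {U : Set G} {σ : Equiv.Perm G}
    {P M : Set G} (h : Inv A B K L b U σ P M) : Inv A B K L b⁻¹ U σ M P where
  one := h.one
  sub := h.sub
  right := h.right
  cyc := h.cyc
  coset := fun x hx => by
    obtain ⟨ρ, h1, h2⟩ := h.coset x hx
    exact ⟨ρ, h1, fun y hy a b => h2 y hy b a⟩
  posU := h.negU
  negU := h.posU
  pos := h.neg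
  neg := fun x hx => by rw [inv_inv]; exact h.pos x hx
  posI := h.negI
  negI := fun x hx y hy h1 h2 => by
    rw [inv_inv] at h2
    exact h.posI x hx y hy h1 h2

/-- the inverse permutation also steps along `B` -/
theorem cyc_step_symm {B U : Set G} {ρ : Equiv.Perm G} (hB : ∀ x ∈ B, x⁻¹ ∈ B)
    (h : CycOn B U ρ) {x : G} (hx : x ∈ U) : ρ⁻¹ x ∈ U ∧ x⁻¹ * ρ⁻¹ x ∈ B := by
  have := h.inv hB
  exact ⟨this.maps x hx, this.step x hx⟩

variable [Finite G]

/-- if `ρ` and `ρ⁻¹` agree at some point of `U` then `U` has at most two elements -/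
theorem cyc_two {B U : Set G} {ρ : Equiv.Perm G} (h : CycOn B U ρ) {x : G} (hx : x ∈ U)
    (hxx : ρ x = ρ⁻¹ x) : ∀ y ∈ U, y = x ∨ y = ρ x := by
  have hρρ : ρ (ρ x) = x := by rw [hxx, pinv1]
  have hpow : ∀ n : ℕ, (ρ ^ n) x = x ∨ (ρ ^ n) x = ρ x := by
    intro n
    induction n with
    | zero => left; rfl
    | succ n ih =>
      rw [pow_succ', Equiv.Perm.mul_apply]
      rcases ih with h | h
      · right; rw [h]
      · left; rw [h, hρρ]
  intro y hy
  obtain ⟨n, hn⟩ := (h.cyc x hx y hy).exists_nat_pow_eq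
  rw [← hn]
  exact hpow n

/-- a coset of a subgroup with at least three elements is not covered by two elements -/
theorem coset_three (J : Subgroup G) (h3 : 3 ≤ Nat.card J) (x u v : G)
    (h : ∀ y, x⁻¹ * y ∈ J → y = u ∨ y = v) : False := by
  have h1 : (fun j : G => x * j) '' (J : Set G) ⊆ {u, v} := by
    rintro _ ⟨j, hj, rfl⟩
    exact h _ (by simpa using hj)
  have h2 := Set.ncard_le_ncard h1 (Set.toFinite _)
  rw [Set.ncard_image_of_injective _ (mul_right_injective x)] at h2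
  have h4 : (J : Set G).ncard = Nat.card J := rfl
  have h5 : ({u, v} : Set G).ncard ≤ 2 := Set.ncard_insert_le _ _ |>.trans (by simp)
  omega

/-- the elements of `B` which commute with `b` -/
def comm (B : Set G) (b : G) : Set G := {c | c ∈ B ∧ c * b = b * c}

omit [Finite G] in
theorem comm_closure {B : Set G} {K : Subgroup G} (hBK : ∀ x ∈ B, x ∈ K) {b : G} :
    ∀ j ∈ Subgroup.closure (comm B b), j ∈ K ∧ j * b = b * j := by
  intro j hj
  induction hj using Subgroup.closure_induction with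
  | mem x hx => exact ⟨hBK x hx.1, hx.2⟩
  | one => exact ⟨K.one_mem, by simp⟩
  | mul x y _ _ hx hy =>
    refine ⟨K.mul_mem hx.1 hy.1, ?_⟩
    rw [mul_assoc, hy.2, ← mul_assoc, hx.2, mul_assoc]
  | inv x _ hx =>
    refine ⟨K.inv_mem hx.1, ?_⟩
    have := hx.2
    calc x⁻¹ * b = x⁻¹ * (b * x) * x⁻¹ := by group
      _ = x⁻¹ * (x * b) * x⁻¹ := by rw [this]
      _ = b * x⁻¹ := by group

theorem free_pos {B : Set G} {K : Subgroup G} {b : G} {U P M : Set G} {x₀ : G}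
    {ρ : Equiv.Perm G} (hB : ∀ x ∈ B, x⁻¹ ∈ B) (hBK : ∀ x ∈ B, x ∈ K)
    (hρ : CycOn B {y | x₀⁻¹ * y ∈ K} ρ) (hK3 : 3 ≤ Nat.card K) (z : G)
    (hzc : ∀ c ∈ B, c ≠ z → c * b = b * c)
    (h3 : b * b ∈ K ∨ 3 ≤ Nat.card (Subgroup.closure (comm B b)))
    (right : ∀ x ∈ U, ∀ k ∈ K, x * k ∈ U) (hx₀b : x₀ * b ∉ U)
    (pos : ∀ x ∈ P, x * b ∈ U) (neg : ∀ x ∈ M, x * b⁻¹ ∈ U)
    (negI : ∀ x ∈ M, ∀ y ∈ M, x⁻¹ * y ∈ K → (x * b⁻¹)⁻¹ * (y * b⁻¹) ∈ K → x = y) :
    ∃ y, x₀⁻¹ * y ∈ K ∧ y ∉ P ∧ y ∉ M ∧ (y⁻¹ * ρ y) * b = b * (y⁻¹ * ρ y) ∧ y * b ∉ U ∧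
      (x₀ * b)⁻¹ * (y * b) ∈ K := by
  set J := Subgroup.closure (comm B b) with hJ
  have hJc : ∀ j ∈ J, j ∈ K ∧ j * b = b * j := comm_closure hBK
  -- each point is next to an edge which commutes with `b`
  have claim : ∀ y, x₀⁻¹ * y ∈ K → ∃ w, (y = w ∨ y = ρ w) ∧ w⁻¹ * ρ w ∈ comm B b ∧ y⁻¹ * w ∈ J := by
    intro y hy
    have h1 : y⁻¹ * ρ y ∈ B := hρ.step y hy
    by_cases hc : (y⁻¹ * ρ y) * b = b * (y⁻¹ * ρ y)
    · exact ⟨y, Or.inl rfl, ⟨h1, hc⟩, by simp [J.one_mem]⟩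
    · have hyz : y⁻¹ * ρ y = z := by
        by_contra hne
        exact hc (hzc _ h1 hne)
      obtain ⟨h2, h4⟩ := cyc_step_symm hB hρ hy
      have hne : y⁻¹ * ρ⁻¹ y ≠ z := by
        intro h5
        have h6 : ρ y = ρ⁻¹ y := by
          have := hyz.trans h5.symm
          exact mul_left_cancel this
        exact coset_three K hK3 x₀ y (ρ y) (fun w hw => cyc_two hρ hy h6 w hw)
      have hcm := hzc _ h4 hne
      have hmem : y⁻¹ * ρ⁻¹ y ∈ J := Subgroup.subset_closure ⟨h4, hcm⟩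
      refine ⟨ρ⁻¹ y, Or.inr (pinv1 ρ y).symm, ?_, hmem⟩
      rw [pinv1]
      refine ⟨?_, ?_⟩
      · have := hB _ h4
        rwa [mul_inv_rev, inv_inv] at this
      · have := (hJc _ (J.inv_mem hmem)).2
        rwa [mul_inv_rev, inv_inv] at this
  -- all points of `x₀ J` are in the same cosets after `b` and `b⁻¹`
  have hJb : ∀ y, x₀⁻¹ * y ∈ J → y * b ∉ U ∧ (x₀ * b)⁻¹ * (y * b) ∈ K := by
    intro y hy
    have h1 := hJc _ hy
    have e : (x₀ * b)⁻¹ * (y * b) = x₀⁻¹ * y := by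
      calc (x₀ * b)⁻¹ * (y * b) = b⁻¹ * ((x₀⁻¹ * y) * b) := by group
        _ = b⁻¹ * (b * (x₀⁻¹ * y)) := by rw [h1.2]
        _ = x₀⁻¹ * y := by group
    refine ⟨?_, by rw [e]; exact h1.1⟩
    intro h
    apply hx₀b
    have h2 := right _ h _ (K.inv_mem h1.1)
    have e2 : y * b * (x₀⁻¹ * y)⁻¹ = x₀ * b := by
      rw [← e]; group
    rwa [e2] at h2
  rcases h3 with hbb | h3
  · obtain ⟨w, _, hw, hwJ⟩ := claim x₀ (by simp [K.one_mem])
    have h1 := hJb w hwJ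
    refine ⟨w, (hJc _ hwJ).1, fun h => h1.1 (pos w h), ?_, hw.2, h1.1, h1.2⟩
    intro h
    apply h1.1
    have h2 := right _ (neg w h) _ hbb
    have e : w * b⁻¹ * (b * b) = w * b := by group
    rwa [e] at h2
  · by_contra hno
    push Not at hno
    have hM : ∀ w, x₀⁻¹ * w ∈ J → w⁻¹ * ρ w ∈ comm B b → w ∈ M := by
      intro w hw hwc
      by_contra hwM
      have h1 := hJb w hw
      exact hno w (hJc _ hw).1 (fun h => h1.1 (pos w h)) hwM hwc.2 h1.1 h1.2
    -- all these positions are equal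
    have heq : ∀ w w', x₀⁻¹ * w ∈ J → w⁻¹ * ρ w ∈ comm B b → x₀⁻¹ * w' ∈ J →
        w'⁻¹ * ρ w' ∈ comm B b → w = w' := by
      intro w w' h1 h2 h1' h2'
      have h4 : w⁻¹ * w' ∈ J := by
        have := J.mul_mem (J.inv_mem h1) h1'
        have e : (x₀⁻¹ * w)⁻¹ * (x₀⁻¹ * w') = w⁻¹ * w' := by group
        rwa [e] at this
      have h5 := hJc _ h4
      apply negI w (hM w h1 h2) w' (hM w' h1' h2') h5.1
      have e : (w * b⁻¹)⁻¹ * (w' * b⁻¹) = w⁻¹ * w' := by
        calc (w * b⁻¹)⁻¹ * (w' * b⁻¹) = (b * (w⁻¹ * w')) * b⁻¹ := by group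
          _ = ((w⁻¹ * w') * b) * b⁻¹ := by rw [h5.2]
          _ = w⁻¹ * w' := by group
      rw [e]; exact h5.1
    obtain ⟨m, _, hm, hmJ⟩ := claim x₀ (by simp [K.one_mem])
    apply coset_three J h3 x₀ m (ρ m)
    intro y hy
    obtain ⟨w, hyw, hw, hwJ⟩ := claim y (hJc _ hy).1
    have hwJ' : x₀⁻¹ * w ∈ J := by
      have := J.mul_mem hy hwJ
      have e : (x₀⁻¹ * y) * (y⁻¹ * w) = x₀⁻¹ * w := by group
      rwa [e] at this
    have := heq w m hwJ' hw hmJ hm
    rw [this] at hyw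
    exact hyw

theorem Inv.extend {A B : Set G} {K L : Subgroup G} {b : G} {U : Set G} {σ : Equiv.Perm G}
    {P M : Set G} (h : Inv A B K L b U σ P M) (hA : ∀ x ∈ A, x⁻¹ ∈ A) (hB : ∀ x ∈ B, x⁻¹ ∈ B)
    (hBA : B ⊆ A) (hBK : ∀ x ∈ B, x ∈ K) (hKL : K ≤ L) (hbL : b ∈ L)
    (hbA : b ∈ A) (hK3 : 3 ≤ Nat.card K) (z : G) (hzc : ∀ c ∈ B, c ≠ z → c * b = b * c)
    (h3 : b * b ∈ K ∨ 3 ≤ Nat.card (Subgroup.closure (comm B b)))
    {x₀ : G} (hx₀ : x₀ ∈ U) (hx₀b : x₀ * b ∉ U) :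
    ∃ (U' : Set G) (σ' : Equiv.Perm G) (P' M' : Set G),
      Inv A B K L b U' σ' P' M' ∧ U ⊆ U' ∧ x₀ * b ∈ U' := by
  obtain ⟨ρ, hρ, hσρ⟩ := h.coset x₀ hx₀
  obtain ⟨y, hyK, hyP, hyM, hyc, hyU, hyx⟩ := free_pos hB hBK hρ hK3 z hzc h3 h.right hx₀b h.pos
    h.neg h.negI
  have hy : y ∈ U := by
    have := h.right _ hx₀ _ hyK
    rwa [mul_inv_cancel_left] at this
  have hσy : σ y = ρ y := hσρ y hyK hyP hyM
  have hσyU : σ y ∈ U := h.cyc.maps y hy
  have hσyK : y⁻¹ * σ y ∈ K := by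
    rw [hσy]; exact hBK _ (hρ.step y hyK)
  -- the cycle in the new coset
  have hσ2 := (hρ.inv hB).translate (y * b * y⁻¹)
  set σ2 := Equiv.mulLeft (y * b * y⁻¹) * ρ⁻¹ * (Equiv.mulLeft (y * b * y⁻¹))⁻¹ with hσ2def
  have ap2 : ∀ v, σ2 v = (y * b * y⁻¹) * ρ⁻¹ ((y * b * y⁻¹)⁻¹ * v) := by
    intro v
    rfl
  have hset : {x | (y * b * y⁻¹)⁻¹ * x ∈ {v | x₀⁻¹ * v ∈ K}} = {v | (y * b)⁻¹ * v ∈ K} := by
    ext v
    simp only [Set.mem_ofPred_eq]
    have e : x₀⁻¹ * ((y * b * y⁻¹)⁻¹ * v) = (x₀⁻¹ * y) * ((y * b)⁻¹ * v) := by group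
    rw [e]
    exact Subgroup.mul_mem_cancel_left K hyK
  rw [hset] at hσ2
  have hnotU : ∀ v, (y * b)⁻¹ * v ∈ K → v ∉ U := by
    intro v hv hvU
    apply hyU
    have := h.right _ hvU _ (K.inv_mem hv)
    have e : v * ((y * b)⁻¹ * v)⁻¹ = y * b := by group
    rwa [e] at this
  -- `y' = σ y * b`
  have hcb : σ y * b = (y * b) * (y⁻¹ * σ y) := by
    rw [hσy]
    calc ρ y * b = y * ((y⁻¹ * ρ y) * b) := by group
      _ = y * (b * (y⁻¹ * ρ y)) := by rw [hyc]
      _ = (y * b) * (y⁻¹ * ρ y) := by group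
  have hy'mem : (y * b)⁻¹ * (σ y * b) ∈ K := by
    rw [hcb, inv_mul_cancel_left]; exact hσyK
  have hxy' : σ2 (σ y * b) = y * b := by
    rw [ap2]
    have e : (y * b * y⁻¹)⁻¹ * (σ y * b) = σ y := by
      rw [hcb]; group
    rw [e, hσy, pinv2]
    group
  have s1 : y⁻¹ * (y * b) ∈ A := by rw [inv_mul_cancel_left]; exact hbA
  have s2 : (σ y * b)⁻¹ * σ y ∈ A := by
    have e : (σ y * b)⁻¹ * σ y = b⁻¹ := by group
    rw [e]; exact hA b hbA
  have hσ2A : CycOn B {v | (y * b)⁻¹ * v ∈ K} σ2 := hσ2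
  have hσ2' : CycOn A {v | (y * b)⁻¹ * v ∈ K} σ2 :=
    ⟨hσ2.fix, hσ2.maps, fun x hx => hBA (hσ2.step x hx), hσ2.cyc⟩
  obtain ⟨hm, em1, em2⟩ := h.cyc.merge hσ2' (fun v hv hv' => hnotU v hv' hv) hy hy'mem hxy' s1 s2
  set σ' := σ * σ2 * Equiv.swap y (σ y * b) with hσ'
  refine ⟨U ∪ {v | (y * b)⁻¹ * v ∈ K}, σ', insert y P, insert (σ y * b) M,
    ⟨?_, ?_, ?_, hm, ?_, ?_, ?_, ?_, ?_, ?_, ?_⟩, Set.subset_union_left, ?_⟩
  · exact Or.inl h.one
  · rintro x (hx | hx)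
    · exact h.sub x hx
    · have h1 : y * b ∈ L := L.mul_mem (h.sub y hy) hbL
      have h2 := L.mul_mem h1 (hKL hx)
      rwa [mul_inv_cancel_left] at h2
  · rintro x (hx | hx) k hk
    · exact Or.inl (h.right x hx k hk)
    · right
      have h1 := K.mul_mem hx hk
      have e : (y * b)⁻¹ * x * k = (y * b)⁻¹ * (x * k) := by group
      rw [e] at h1
      exact h1
  · rintro x (hx | hx)
    · obtain ⟨ρ', h1, h2⟩ := h.coset x hx
      refine ⟨ρ', h1, ?_⟩
      intro v hv hvP hvM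
      have hvU : v ∈ U := by
        have := h.right _ hx _ hv
        rwa [mul_inv_cancel_left] at this
      rw [em1 v hvU (fun h => hvP (Or.inl h))]
      exact h2 v hv (fun h => hvP (Or.inr h)) (fun h => hvM (Or.inr h))
    · refine ⟨σ2, ?_, ?_⟩
      · have e : {v | x⁻¹ * v ∈ K} = {v | (y * b)⁻¹ * v ∈ K} := by
          ext v
          simp only [Set.mem_ofPred_eq]
          have e : (y * b)⁻¹ * v = ((y * b)⁻¹ * x) * (x⁻¹ * v) := by group
          rw [e]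
          exact (Subgroup.mul_mem_cancel_left K hx).symm
        rw [e]; exact hσ2
      · intro v hv hvP hvM
        have hv' : (y * b)⁻¹ * v ∈ K := by
          have := K.mul_mem hx hv
          have e : (y * b)⁻¹ * x * (x⁻¹ * v) = (y * b)⁻¹ * v := by group
          rwa [e] at this
        exact em2 v hv' (fun h => hvM (Or.inl h))
  · rintro x (rfl | hx)
    · exact Or.inl hy
    · exact Or.inl (h.posU x hx)
  · rintro x (rfl | hx)
    · exact Or.inr hy'mem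
    · exact Or.inl (h.negU x hx)
  · rintro x (rfl | hx)
    · right
      simp [K.one_mem]
    · exact Or.inl (h.pos x hx)
  · rintro x (rfl | hx)
    · left
      rw [mul_inv_cancel_right]; exact hσyU
    · exact Or.inl (h.neg x hx)
  · rintro x (rfl | hx) w (rfl | hw) h1 h2
    · rfl
    · exact absurd (h.pos w hw) (hnotU _ h2)
    · exfalso
      refine hnotU (x * b) ?_ (h.pos x hx)
      have := K.inv_mem h2
      rwa [mul_inv_rev, inv_inv] at this
    · exact h.posI x hx w hw h1 h2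
  · rintro x (rfl | hx) w (rfl | hw) h1 h2
    · rfl
    · refine absurd (h.negU w hw) (hnotU w ?_)
      have := K.mul_mem hy'mem h1
      have e : (y * b)⁻¹ * (σ y * b) * ((σ y * b)⁻¹ * w) = (y * b)⁻¹ * w := by group
      rwa [e] at this
    · refine absurd (h.negU x hx) (hnotU x ?_)
      have := K.mul_mem hy'mem (K.inv_mem h1)
      have e : (y * b)⁻¹ * (σ y * b) * (x⁻¹ * (σ y * b))⁻¹ = (y * b)⁻¹ * x := by group
      rwa [e] at this
    · exact h.negI x hx w hw h1 h2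
  · right
    simp only [Set.mem_ofPred_eq]
    have := K.inv_mem hyx
    rwa [mul_inv_rev, inv_inv] at this

theorem step_aux {A B : Set G} {K L : Subgroup G} {b : G} (hA : ∀ x ∈ A, x⁻¹ ∈ A)
    (hB : ∀ x ∈ B, x⁻¹ ∈ B) (hBA : B ⊆ A) (hBK : ∀ x ∈ B, x ∈ K) (hKL : K ≤ L) (hbL : b ∈ L)
    (hLb : L ≤ K ⊔ Subgroup.zpowers b)
    (hbA : b ∈ A) (hK3 : 3 ≤ Nat.card K) (z : G) (hzc : ∀ c ∈ B, c ≠ z → c * b = b * c)
    (h3 : b * b ∈ K ∨ 3 ≤ Nat.card (Subgroup.closure (comm B b))) :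
    ∀ (n : ℕ) (U : Set G) (σ : Equiv.Perm G) (P M : Set G), Inv A B K L b U σ P M →
      ((L : Set G) \ U).ncard = n → ∃ σ : Equiv.Perm G, CycOn A (L : Set G) σ := by
  intro n
  induction n using Nat.strong_induction_on with
  | _ n ih =>
    intro U σ P M h hn
    by_cases hUL : ∀ x ∈ L, x ∈ U
    · have : U = (L : Set G) := Set.Subset.antisymm h.sub hUL
      exact ⟨σ, this ▸ h.cyc⟩
    -- there is a way out of `U`
    have hout : ∃ x ∈ U, x * b ∉ U ∨ x * b⁻¹ ∉ U := by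
      by_contra hno
      push Not at hno
      apply hUL
      intro x hx
      have hx' := hLb hx
      have hall : ∀ y ∈ K ⊔ Subgroup.zpowers b, ∀ u ∈ U, u * y ∈ U := by
        intro y hy
        rw [Subgroup.sup_eq_closure] at hy
        induction hy using Subgroup.closure_induction with
        | mem y hy =>
          intro u hu
          rcases hy with hy | hy
          · exact h.right u hu y hy
          · obtain ⟨i, rfl⟩ := Subgroup.mem_zpowers_iff.1 hy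
            induction i using Int.induction_on with
            | zero => simpa using hu
            | succ i ih =>
              have h1 := (hno _ (ih (Subgroup.zpow_mem_zpowers b _))).1
              rwa [mul_assoc, ← zpow_add_one] at h1
            | pred i ih =>
              have h1 := (hno _ (ih (Subgroup.zpow_mem_zpowers b _))).2
              rwa [mul_assoc, ← zpow_sub_one] at h1
        | one => intro u hu; simpa using hu
        | mul y y' _ _ h1 h2 =>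
          intro u hu
          rw [← mul_assoc]
          exact h2 _ (h1 u hu)
        | inv y _ h1 =>
          intro u hu
          have h2 : ∀ n : ℕ, u * y ^ n ∈ U := by
            intro n
            induction n with
            | zero => simpa using hu
            | succ n ih => rw [pow_succ, ← mul_assoc]; exact h1 _ ih
          obtain ⟨m, hm⟩ : ∃ m : ℕ, y ^ m = y⁻¹ := by
            have : y⁻¹ ∈ Subgroup.zpowers y := Subgroup.inv_mem _ (Subgroup.mem_zpowers y)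
            rw [← mem_powers_iff_mem_zpowers, Submonoid.mem_powers_iff] at this
            exact this
          rw [← hm]; exact h2 m
      have := hall x hx' 1 h.one
      rwa [one_mul] at this
    -- extend
    have key : ∃ (U' : Set G) (σ' : Equiv.Perm G) (P' M' : Set G),
        Inv A B K L b U' σ' P' M' ∧ U ⊆ U' ∧ ∃ x, x ∈ U' ∧ x ∉ U := by
      obtain ⟨x, hx, hxb | hxb⟩ := hout
      · obtain ⟨U', σ', P', M', h1, h2, h4⟩ :=
          h.extend hA hB hBA hBK hKL hbL hbA hK3 z hzc h3 hx hxb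
        exact ⟨U', σ', P', M', h1, h2, _, h4, hxb⟩
      · have hzc' : ∀ c ∈ B, c ≠ z → c * b⁻¹ = b⁻¹ * c := by
          intro c hc hcz
          have := hzc c hc hcz
          calc c * b⁻¹ = b⁻¹ * (b * c) * b⁻¹ := by group
            _ = b⁻¹ * (c * b) * b⁻¹ := by rw [this]
            _ = b⁻¹ * c := by group
        have hcc : comm B b⁻¹ = comm B b := by
          ext c
          constructor
          · rintro ⟨h1, h2⟩
            refine ⟨h1, ?_⟩
            calc c * b = b * (b⁻¹ * c) * b := by group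
              _ = b * (c * b⁻¹) * b := by rw [h2]
              _ = b * c := by group
          · rintro ⟨h1, h2⟩
            refine ⟨h1, ?_⟩
            calc c * b⁻¹ = b⁻¹ * (b * c) * b⁻¹ := by group
              _ = b⁻¹ * (c * b) * b⁻¹ := by rw [h2]
              _ = b⁻¹ * c := by group
        have h3' : b⁻¹ * b⁻¹ ∈ K ∨ 3 ≤ Nat.card (Subgroup.closure (comm B b⁻¹)) := by
          rcases h3 with h3 | h3
          · left
            have := K.inv_mem h3
            rwa [mul_inv_rev] at this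
          · right; rw [hcc]; exact h3
        obtain ⟨U', σ', P', M', h1, h2, h4⟩ :=
          h.swap.extend hA hB hBA hBK hKL (L.inv_mem hbL) (hA b hbA) hK3 z hzc' h3' hx hxb
        have h5 := h1.swap
        rw [inv_inv] at h5
        exact ⟨U', σ', M', P', h5, h2, _, h4, hxb⟩
    obtain ⟨U', σ', P', M', h1, h2, x, hx, hxU⟩ := key
    refine ih _ ?_ U' σ' P' M' h1 rfl
    rw [← hn]
    apply Set.ncard_lt_ncard _ (Set.toFinite _)
    refine ⟨fun y hy => ⟨hy.1, fun h => hy.2 (h2 h)⟩, ?_⟩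
    intro hsub
    exact (hsub ⟨h1.sub x hx, hxU⟩ : x ∈ (L : Set G) \ U').2 hx

/-- **One more generator.** -/
theorem step {A B : Set G} {K : Subgroup G} {b : G} (hA : ∀ x ∈ A, x⁻¹ ∈ A)
    (hB : ∀ x ∈ B, x⁻¹ ∈ B) (hBA : B ⊆ A) (hBK : ∀ x ∈ B, x ∈ K)
    (hbA : b ∈ A) (hK3 : 3 ≤ Nat.card K) (z : G) (hzc : ∀ c ∈ B, c ≠ z → c * b = b * c)
    (h3 : b * b ∈ K ∨ 3 ≤ Nat.card (Subgroup.closure (comm B b)))
    (hK : ∃ τ : Equiv.Perm G, CycOn B (K : Set G) τ) :
    ∃ σ : Equiv.Perm G, CycOn A ((K ⊔ Subgroup.zpowers b : Subgroup G) : Set G) σ := by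
  obtain ⟨τ, hτ⟩ := hK
  refine step_aux hA hB hBA hBK (le_sup_left : K ≤ K ⊔ Subgroup.zpowers b)
    ((le_sup_right : _ ≤ K ⊔ Subgroup.zpowers b) (Subgroup.mem_zpowers b)) le_rfl hbA hK3 z hzc h3
    _ (K : Set G) τ ∅ ∅ ⟨?_, ?_, ?_, ?_, ?_, ?_, ?_, ?_, ?_, ?_, ?_⟩ rfl
  · exact K.one_mem
  · exact fun x hx => (le_sup_left : K ≤ K ⊔ Subgroup.zpowers b) hx
  · exact fun x hx k hk => K.mul_mem hx hk
  · exact ⟨hτ.fix, hτ.maps, fun x hx => hBA (hτ.step x hx), hτ.cyc⟩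
  · intro x hx
    refine ⟨τ, ?_, fun _ _ _ _ => rfl⟩
    have e : {y | x⁻¹ * y ∈ K} = (K : Set G) := by
      ext y
      exact Subgroup.mul_mem_cancel_left K (K.inv_mem hx)
    rw [e]; exact hτ
  all_goals simp

end Pool.Agent.P8H49.Ham
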