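import Pool.Agent.P8H49.Match
import Pool.Agent.P8H49.AltStep

/-!
Closed listings of groups generated by a subgroup `H` and elements which commute with an involution
`a` of `H` which is used often in a closed listing of `H`.
-/

namespace Pool.Agent.P8H49.Match

open Pool.Agent.R759.HC Pool.Agent.P8H49.Ham

attribute [local instance] Classical.propDecidable

variable {G : Type*} [Group G]

/-- matchings for all generators -/
theorem match_list [Finite G] {F H : Subgroup G} {B Av : Set G} (hFH : F ≤ H)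
    (hAv : ∀ x ∈ Av, ∀ f ∈ F, x * f ∈ Av) {miss : ℕ}
    (hmiss : {x | x ∈ H ∧ x ∉ Av}.ncard ≤ miss)
    (h3 : 3 * (miss + 2 * Nat.card F) ≤ Nat.card H) :
    ∀ l : List G, (∀ u ∈ l, u ∈ B ∧ u * u ∈ F ∧ ∀ f ∈ F, u⁻¹ * f * u ∈ F) →
    ∃ m γ : G → G, MData F H (H ⊔ Subgroup.closure {x | x ∈ l}) B Av m γ ∧
      (NB F (H ⊔ Subgroup.closure {x | x ∈ l}) Av m γ).ncard * Nat.card H +
        2 * Nat.card F * Nat.card H ≤
      (miss + 2 * Nat.card F) * Nat.card (H ⊔ Subgroup.closure {x | x ∈ l} : Subgroup G) := by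
  intro l
  induction l with
  | nil =>
    intro _
    have e2 : {x | x ∈ ([] : List G)} = (∅ : Set G) := by
      ext x; simp
    rw [e2, Subgroup.closure_empty, sup_bot_eq]
    refine ⟨fun x => x, fun x => if x ∈ H then 1 else x, mdata_base, ?_⟩
    have hsub : NB F H Av (fun x => x) (fun x => if x ∈ H then 1 else x) ⊆
        {x | x ∈ H ∧ x ∉ Av} := by
      rintro x ⟨hx, h1 | h1⟩
      · exfalso
        apply h1
        simp
      · refine ⟨hx, ?_⟩
        simpa [hx] using h1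
    have h1 := (Set.ncard_le_ncard hsub (Set.toFinite _)).trans hmiss
    have h2 := Nat.mul_le_mul_right (Nat.card H) h1
    calc _ ≤ miss * Nat.card H + 2 * Nat.card F * Nat.card H := Nat.add_le_add_right h2 _
      _ = _ := by ring
  | cons u l ih =>
    intro hl
    obtain ⟨m, γ, h1, h2⟩ := ih (fun v hv => hl v (List.mem_cons_of_mem _ hv))
    obtain ⟨huB, huu, huF⟩ := hl u List.mem_cons_self
    obtain ⟨m', γ', h4, h5⟩ := mstep h1 hFH le_sup_left hAv h2 h3 huB huu huF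
    have e : H ⊔ Subgroup.closure {x | x ∈ l} ⊔ Subgroup.zpowers u =
        H ⊔ Subgroup.closure {x | x ∈ u :: l} := by
      rw [sup_assoc, Subgroup.zpowers_eq_closure, ← Subgroup.closure_union]
      congr 2
      ext x
      simp only [Set.mem_union, Set.mem_ofPred_eq, Set.mem_singleton_iff, List.mem_cons]
      tauto
    rw [e] at h4 h5
    exact ⟨m', γ', h4, h5⟩

theorem match_set [Finite G] {F H : Subgroup G} {B Av : Set G} (hFH : F ≤ H)
    (hAv : ∀ x ∈ Av, ∀ f ∈ F, x * f ∈ Av)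
    (h3 : 3 * ({x | x ∈ H ∧ x ∉ Av}.ncard + 2 * Nat.card F) ≤ Nat.card H)
    (hB : ∀ u ∈ B, u * u ∈ F ∧ ∀ f ∈ F, u⁻¹ * f * u ∈ F) :
    ∃ m γ : G → G, MData F H (H ⊔ Subgroup.closure B) B Av m γ := by
  have hfin : B.Finite := Set.toFinite _
  have hmem : ∀ x, x ∈ hfin.toFinset.toList ↔ x ∈ B := by
    intro x
    rw [Finset.mem_toList, Set.Finite.mem_toFinset]
  obtain ⟨m, γ, h1, _⟩ := match_list (B := B) hFH hAv le_rfl h3 hfin.toFinset.toList
    (fun u hu => ⟨(hmem u).1 hu, hB u ((hmem u).1 hu)⟩)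
  simp only [hmem] at h1
  exact ⟨m, γ, h1⟩

/-- the edges at `z` after a change at `x` -/
theorem hasE_of_eq {A U Y : Set G} {σ σ' : Equiv.Perm G} {x z : G} (hσ : CycOn A U σ)
    (he : ∀ w ∈ U, w ≠ x → σ' w = σ w) (hz : z ∈ U) (h : HasE Y σ z)
    (h1 : z = x → x⁻¹ * σ x ∉ Y) (h2 : z = σ x → (σ x)⁻¹ * x ∉ Y) : HasE Y σ' z := by
  rcases h with h | ⟨c, hc, h⟩
  · left
    rw [he z hz]
    · exact h
    · rintro rfl
      exact h1 rfl h
  · right
    refine ⟨c, hc, ?_⟩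
    have hzc : z * c ∈ U := by
      by_contra hn
      have h4 := hσ.fix _ hn
      rw [h] at h4
      rw [← h4] at hn
      exact hn hz
    rw [he _ hzc, h]
    rintro rfl
    apply h2 h.symm
    rw [h]
    have e : z⁻¹ * (z * c) = c := by group
    rw [e]; exact hc

/-- the state of the merging process -/
structure HInv (A : Set G) (H L : Subgroup G) (a : G) (τ : Equiv.Perm G) (m γ : G → G)
    (U : Set G) (σ : Equiv.Perm G) : Prop where
  one : (1 : G) ∈ U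
  sub : ∀ x ∈ U, x ∈ L
  right : ∀ x ∈ U, ∀ h ∈ H, x * h ∈ U
  cyc : CycOn A U σ
  keep : ∀ Y : Set G, Sym Y → a ∉ Y → ∀ x ∈ U, HasE Y τ ((γ x)⁻¹ * x) → HasE Y σ x
  av : ∀ x ∈ U, m x ∉ U → HasE {a} τ ((γ x)⁻¹ * x) → HasE {a} σ x

theorem HInv.extend [Finite G] {A : Set G} {F H L : Subgroup G} {a : G} {τ : Equiv.Perm G}
    {m γ : G → G} {U : Set G} {σ : Equiv.Perm G} {B Av : Set G}
    (h : HInv A H L a τ m γ U σ) (hM : MData F H L B Av m γ) (hA : Sym A) (hBA : B ⊆ A)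
    (hBa : ∀ u ∈ B, u * a = a * u) (haa : a * a = 1) (hF : ∀ f, f ∈ F ↔ f = 1 ∨ f = a)
    (hFH : F ≤ H) (hHL : H ≤ L) (hτ : CycOn A (H : Set G) τ)
    (hAv : ∀ x ∈ Av, HasE {a} τ x) {x : G} (hx : x ∈ U) (hmx : m x ∉ U) :
    ∃ (U' : Set G) (σ' : Equiv.Perm G), HInv A H L a τ m γ U' σ' ∧ U ⊆ U' ∧ m x ∈ U' := by
  have haF : a ∈ F := (hF a).2 (Or.inr rfl)
  have haH : a ∈ H := hFH haF
  have ha' : a⁻¹ = a := inv_eq_of_mul_eq_one_left haa
  have hsymA : Sym ({a} : Set G) := by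
    intro y hy
    rw [Set.mem_singleton_iff] at hy
    rw [hy, Set.mem_singleton_iff]; exact ha'
  have hxL := h.sub x hx
  have hUF : ∀ v w : G, v ∈ U → v⁻¹ * w ∈ F → w ∈ U := by
    intro v w hv hvw
    have := h.right v hv _ (hFH hvw)
    rwa [mul_inv_cancel_left] at this
  have hmxL : m x ∈ L := hM.mem x hxL
  -- `x` is used
  have hxused : x⁻¹ * m x ∉ F := fun h1 => hmx (hUF x _ hx h1)
  obtain ⟨u, huB, hu⟩ : ∃ u ∈ B, m x = x * u := by
    rcases hM.typ x hxL with h1 | h1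
    · exfalso; apply hxused; rw [h1]; simp [F.one_mem]
    · exact h1
  have hua := hBa u huB
  -- the position `x1` in the slot of `x`
  obtain ⟨x1, hx1F, hx1σ⟩ : ∃ x1, x⁻¹ * x1 ∈ F ∧ σ x1 = x1 * a := by
    rcases h.av x hx hmx (hAv _ (hM.avail x hxL hxused)) with h1 | ⟨c, hc, h1⟩
    · refine ⟨x, by simp [F.one_mem], ?_⟩
      rw [Set.mem_singleton_iff] at h1
      rw [← h1, mul_inv_cancel_left]
    · rw [Set.mem_singleton_iff] at hc
      subst hc
      refine ⟨x * c, by rw [inv_mul_cancel_left]; exact haF, ?_⟩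
      rw [h1, mul_assoc, haa, mul_one]
  have hx1U : x1 ∈ U := hUF x x1 hx hx1F
  set y1 := x1 * u with hy1
  -- `y1` is in the slot of `m x`
  have hy1F : (m x)⁻¹ * y1 ∈ F := by
    rcases (hF _).1 hx1F with h1 | h1
    · have e : x1 = x := by
        rw [← mul_one x, ← h1, mul_inv_cancel_left]
      rw [hy1, e, ← hu]; simp [F.one_mem]
    · have e : x1 = x * a := by
        rw [← h1, mul_inv_cancel_left]
      rw [hy1, e, hu]
      have e2 : (x * u)⁻¹ * (x * a * u) = u⁻¹ * (a * u) := by group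
      rw [e2, ← hua, inv_mul_cancel_left]
      exact haF
  have hy1L : y1 ∈ L := by
    have := L.mul_mem hmxL (hHL (hFH hy1F))
    rwa [mul_inv_cancel_left] at this
  have hy1U : y1 ∉ U := by
    intro h1
    apply hmx
    apply hUF y1 _ h1
    have := F.inv_mem hy1F
    rwa [mul_inv_rev, inv_inv] at this
  -- the partner of `y1` is in the slot of `x`
  have hmy1 : (m y1)⁻¹ * x ∈ F := by
    have h1 := hM.cong _ hmxL _ hy1F
    rw [mul_inv_cancel_left] at h1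
    have h2 := hM.invol x hxL
    have h3 := F.mul_mem (F.inv_mem h1) h2
    have e : ((m (m x))⁻¹ * m y1)⁻¹ * ((m (m x))⁻¹ * x) = (m y1)⁻¹ * x := by group
    rwa [e] at h3
  have hy1used : y1⁻¹ * m y1 ∉ F := by
    intro h1
    apply hy1U
    apply hUF x _ hx
    have h2 := F.inv_mem (F.mul_mem h1 hmy1)
    have e : (y1⁻¹ * m y1 * ((m y1)⁻¹ * x))⁻¹ = x⁻¹ * y1 := by group
    rwa [e] at h2
  have hgy1 : y1⁻¹ * γ y1 ∈ H := hM.gmem y1 hy1L
  -- the cycle of the coset of `y1`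
  have hset : {w | (γ y1)⁻¹ * w ∈ (H : Set G)} = {w | y1⁻¹ * w ∈ H} := by
    ext w
    change (γ y1)⁻¹ * w ∈ H ↔ y1⁻¹ * w ∈ H
    have e : y1⁻¹ * w = (y1⁻¹ * γ y1) * ((γ y1)⁻¹ * w) := by group
    rw [e]
    exact (Subgroup.mul_mem_cancel_left H hgy1).symm
  have hc0 := hτ.translate (γ y1)
  rw [hset] at hc0
  set ρ0 := Equiv.mulLeft (γ y1) * τ * (Equiv.mulLeft (γ y1))⁻¹ with hρ0
  have hE0 : ∀ (Y : Set G) (z : G), HasE Y τ ((γ y1)⁻¹ * z) → HasE Y ρ0 z :=
    fun Y z hz => HasE.translate hz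
  obtain ⟨ρ, hρ, hρE, hρy⟩ : ∃ ρ : Equiv.Perm G, CycOn A {w | y1⁻¹ * w ∈ H} ρ ∧
      (∀ (Y : Set G) (z : G), HasE Y τ ((γ y1)⁻¹ * z) → HasE Y ρ z) ∧ ρ (y1 * a) = y1 := by
    rcases hE0 {a} y1 (hAv _ (hM.avail y1 hy1L hy1used)) with h1 | ⟨c, hc, h1⟩
    · rw [Set.mem_singleton_iff] at h1
      refine ⟨ρ0⁻¹, hc0.inv hA, fun Y z hz => (hE0 Y z hz).inv, ?_⟩
      rw [Equiv.Perm.inv_eq_iff_eq, ← h1, mul_inv_cancel_left]
    · rw [Set.mem_singleton_iff] at hc
      subst hc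
      exact ⟨ρ0, hc0, hE0, h1⟩
  have hnotU : ∀ v, y1⁻¹ * v ∈ H → v ∉ U := by
    intro v hv hvU
    apply hy1U
    have := h.right _ hvU _ (H.inv_mem hv)
    have e : v * (y1⁻¹ * v)⁻¹ = y1 := by group
    rwa [e] at this
  have hy1a : y1 * a ∈ {w | y1⁻¹ * w ∈ H} := by
    change y1⁻¹ * (y1 * a) ∈ H
    rw [inv_mul_cancel_left]; exact haH
  have s1 : x1⁻¹ * y1 ∈ A := by rw [hy1, inv_mul_cancel_left]; exact hBA huB
  have s2 : (y1 * a)⁻¹ * σ x1 ∈ A := by
    have e : (y1 * a)⁻¹ * σ x1 = u⁻¹ := by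
      rw [hx1σ, hy1]
      calc (x1 * u * a)⁻¹ * (x1 * a) = (u * a)⁻¹ * a := by group
        _ = (a * u)⁻¹ * a := by rw [hua]
        _ = u⁻¹ * (a⁻¹ * a) := by group
        _ = u⁻¹ := by rw [inv_mul_cancel, mul_one]
    rw [e]; exact hA u (hBA huB)
  obtain ⟨hm, em1, em2⟩ := h.cyc.merge hρ (fun v hv hv' => hnotU v hv' hv) hx1U hy1a hρy s1 s2
  set σ' := σ * ρ * Equiv.swap x1 (y1 * a) with hσ'
  have hright2 : ∀ v, y1⁻¹ * v ∈ H → ∀ k ∈ H, y1⁻¹ * (v * k) ∈ H := by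
    intro v hv k hk
    rw [← mul_assoc]; exact H.mul_mem hv hk
  have hUsub : ∀ v, v ∈ U ∨ y1⁻¹ * v ∈ H → ∀ f ∈ F, v * f ∈ U ∨ y1⁻¹ * (v * f) ∈ H := by
    rintro v (hv | hv) f hf
    · exact Or.inl (h.right v hv f (hFH hf))
    · exact Or.inr (hright2 v hv f (hFH hf))
  -- the slot of `x1` has its partner in the new coset, and conversely
  have hp1 : ∀ v, x⁻¹ * v ∈ F → m v ∈ U ∪ {w | y1⁻¹ * w ∈ H} := by
    intro v hv
    right
    have h1 := hM.cong x hxL _ hv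
    rw [mul_inv_cancel_left] at h1
    have h2 := F.mul_mem (F.inv_mem hy1F) h1
    have e : ((m x)⁻¹ * y1)⁻¹ * ((m x)⁻¹ * m v) = y1⁻¹ * m v := by group
    rw [e] at h2
    exact hFH h2
  have hp2 : ∀ v, y1⁻¹ * v ∈ F → m v ∈ U ∪ {w | y1⁻¹ * w ∈ H} := by
    intro v hv
    left
    have h1 := hM.cong y1 hy1L _ hv
    rw [mul_inv_cancel_left] at h1
    have h2 := F.mul_mem (F.inv_mem hmy1) h1
    have e : ((m y1)⁻¹ * x)⁻¹ * ((m y1)⁻¹ * m v) = x⁻¹ * m v := by group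
    rw [e] at h2
    exact hUF x _ hx h2
  refine ⟨U ∪ {w | y1⁻¹ * w ∈ H}, σ', ⟨?_, ?_, ?_, hm, ?_, ?_⟩, Set.subset_union_left, ?_⟩
  · exact Or.inl h.one
  · rintro v (hv | hv)
    · exact h.sub v hv
    · have := L.mul_mem hy1L (hHL hv)
      rwa [mul_inv_cancel_left] at this
  · rintro v (hv | hv) k hk
    · exact Or.inl (h.right v hv k hk)
    · exact Or.inr (hright2 v hv k hk)
  · intro Y hY haY z hz hzE
    rcases hz with hz | hz
    · refine hasE_of_eq h.cyc em1 hz (h.keep Y hY haY z hz hzE) ?_ ?_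
      · intro _
        rw [hx1σ, inv_mul_cancel_left]; exact haY
      · intro _
        rw [hx1σ]
        have e : (x1 * a)⁻¹ * x1 = a := by
          rw [mul_inv_rev, inv_mul_cancel_right, ha']
        rw [e]; exact haY
    · have hγ : γ z = γ y1 := by
        have := hM.gcon y1 hy1L _ hz
        rwa [mul_inv_cancel_left] at this
      rw [hγ] at hzE
      refine hasE_of_eq hρ em2 hz (hρE Y z hzE) ?_ ?_
      · intro _
        rw [hρy]
        have e : (y1 * a)⁻¹ * y1 = a := by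
          rw [mul_inv_rev, inv_mul_cancel_right, ha']
        rw [e]; exact haY
      · intro _
        rw [hρy, inv_mul_cancel_left]; exact haY
  · intro z hz hmz hzE
    have hnF1 : x⁻¹ * z ∉ F := fun h1 => hmz (hp1 z h1)
    have hnF2 : y1⁻¹ * z ∉ F := fun h1 => hmz (hp2 z h1)
    rcases hz with hz | hz
    · refine hasE_of_eq h.cyc em1 hz (h.av z hz (fun h1 => hmz (Or.inl h1)) hzE) ?_ ?_
      · intro h1
        exfalso
        rw [h1] at hnF1
        exact hnF1 hx1F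
      · intro h1
        exfalso
        rw [h1, hx1σ, ← mul_assoc] at hnF1
        exact hnF1 (F.mul_mem hx1F haF)
    · have hγ : γ z = γ y1 := by
        have := hM.gcon y1 hy1L _ hz
        rwa [mul_inv_cancel_left] at this
      rw [hγ] at hzE
      refine hasE_of_eq hρ em2 hz (hρE _ z hzE) ?_ ?_
      · intro h1
        exfalso
        rw [h1, inv_mul_cancel_left] at hnF2
        exact hnF2 haF
      · intro h1
        exfalso
        rw [h1, hρy, inv_mul_cancel] at hnF2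
        exact hnF2 F.one_mem
  · right
    have := H.inv_mem (hFH hy1F)
    rwa [mul_inv_rev, inv_inv] at this

theorem hub_aux [Finite G] {A : Set G} {F H L : Subgroup G} {a : G} {τ : Equiv.Perm G}
    {m γ : G → G} {B Av : Set G}
    (hM : MData F H L B Av m γ) (hA : Sym A) (hBA : B ⊆ A)
    (hBa : ∀ u ∈ B, u * a = a * u) (haa : a * a = 1) (hF : ∀ f, f ∈ F ↔ f = 1 ∨ f = a)
    (hFH : F ≤ H) (hHL : H ≤ L) (hτ : CycOn A (H : Set G) τ)
    (hAv : ∀ x ∈ Av, HasE {a} τ x) :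
    ∀ (n : ℕ) (U : Set G) (σ : Equiv.Perm G), HInv A H L a τ m γ U σ →
      ((L : Set G) \ U).ncard = n → ∃ σ, HInv A H L a τ m γ (L : Set G) σ := by
  intro n
  induction n using Nat.strong_induction_on with
  | _ n ih =>
    intro U σ h hn
    by_cases hUL : ∀ x ∈ L, x ∈ U
    · have : U = (L : Set G) := Set.Subset.antisymm h.sub hUL
      exact ⟨σ, this ▸ h⟩
    obtain ⟨x, hx, hmx⟩ : ∃ x ∈ U, m x ∉ U := by
      by_contra hno
      push Not at hno
      apply hUL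
      exact hM.conn U h.right (fun x _ hx => hno x hx) 1 L.one_mem h.one
    obtain ⟨U', σ', h1, h2, h3⟩ := h.extend hM hA hBA hBa haa hF hFH hHL hτ hAv hx hmx
    refine ih _ ?_ U' σ' h1 rfl
    rw [← hn]
    apply Set.ncard_lt_ncard _ (Set.toFinite _)
    refine ⟨fun y hy => ⟨hy.1, fun h => hy.2 (h2 h)⟩, ?_⟩
    intro hsub
    exact (hsub ⟨h1.sub _ h3, hmx⟩ : m x ∈ (L : Set G) \ U').2 h3

/-- the number of elements of `L` whose image in the coset of `H` lies in `W` -/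
theorem coset_count [Finite G] {F H L : Subgroup G} {m γ : G → G} {B Av : Set G}
    (hM : MData F H L B Av m γ) (hHL : H ≤ L) (W : Set G) :
    {x | x ∈ L ∧ (γ x)⁻¹ * x ∈ W}.ncard * Nat.card H ≤ {x | x ∈ H ∧ x ∈ W}.ncard * Nat.card L := by
  have hcard : Nat.card L = Nat.card (L ⧸ H.subgroupOf L) * Nat.card H := by
    rw [Subgroup.card_eq_card_quotient_mul_card_subgroup (H.subgroupOf L)]
    congr 1
    exact Nat.card_congr (Subgroup.subgroupOfEquivOfLe hHL).toEquiv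
  have hmem : ∀ x, x ∈ L → (γ x)⁻¹ * x ∈ H := by
    intro x hx
    have := H.inv_mem (hM.gmem x hx)
    rwa [mul_inv_rev, inv_inv] at this
  have h1 : {x | x ∈ L ∧ (γ x)⁻¹ * x ∈ W}.ncard ≤
      Nat.card (L ⧸ H.subgroupOf L) * {x | x ∈ H ∧ x ∈ W}.ncard := by
    rw [← Nat.card_coe_set_eq, ← Nat.card_coe_set_eq, ← Nat.card_prod]
    apply Nat.card_le_card_of_injective
      (fun x : {x | x ∈ L ∧ (γ x)⁻¹ * x ∈ W} =>
        (((⟨x, x.2.1⟩ : L) : L ⧸ H.subgroupOf L),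
          (⟨(γ x)⁻¹ * x, hmem x x.2.1, x.2.2⟩ : {x | x ∈ H ∧ x ∈ W})))
    intro x y hxy
    have h1 := congrArg Prod.fst hxy
    have h2 := congrArg (fun t => (t.2 : G)) hxy
    simp only at h1 h2
    rw [QuotientGroup.eq, Subgroup.mem_subgroupOf] at h1
    have h3 : (x : G)⁻¹ * y ∈ H := h1
    have h4 := hM.gcon x x.2.1 _ h3
    rw [mul_inv_cancel_left] at h4
    rw [h4] at h2
    exact Subtype.ext (mul_left_cancel h2)
  rw [hcard]
  calc _ ≤ Nat.card (L ⧸ H.subgroupOf L) * {x | x ∈ H ∧ x ∈ W}.ncard * Nat.card H :=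
        Nat.mul_le_mul_right _ h1
    _ = _ := by ring

/-- **One hub.** -/
theorem hub [Finite G] {A : Set G} {H : Subgroup G} {a : G} {τ : Equiv.Perm G} {B : Set G}
    (hA : Sym A) (haH : a ∈ H) (haa : a * a = 1) (ha1 : a ≠ 1) (hτ : CycOn A (H : Set G) τ)
    (hBA : B ⊆ A) (hB : ∀ u ∈ B, u * a = a * u ∧ (u * u = 1 ∨ u * u = a))
    (hcount : 3 * ({x | x ∈ H ∧ ¬ HasE {a} τ x}.ncard + 4) ≤ Nat.card H) :
    ∃ σ : Equiv.Perm G, CycOn A ((H ⊔ Subgroup.closure B : Subgroup G) : Set G) σ ∧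
      ∀ c : G, c⁻¹ = c → c ≠ a →
        {x | x ∈ H ⊔ Subgroup.closure B ∧ ¬ HasE {c} σ x}.ncard * Nat.card H ≤
        {x | x ∈ H ∧ ¬ HasE {c} τ x}.ncard * Nat.card (H ⊔ Subgroup.closure B : Subgroup G) := by
  have ha' : a⁻¹ = a := inv_eq_of_mul_eq_one_left haa
  have hF : ∀ f, f ∈ Subgroup.zpowers a ↔ f = 1 ∨ f = a := by
    intro f
    constructor
    · intro hf
      obtain ⟨k, rfl⟩ := Subgroup.mem_zpowers_iff.1 hf
      rcases Int.even_or_odd' k with ⟨n, rfl | rfl⟩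
      · left
        rw [zpow_mul]
        have : a ^ (2 : ℤ) = 1 := by
          rw [zpow_two]; exact haa
        rw [this, one_zpow]
      · right
        rw [zpow_add, zpow_mul]
        have : a ^ (2 : ℤ) = 1 := by
          rw [zpow_two]; exact haa
        rw [this, one_zpow, one_mul, zpow_one]
    · rintro (rfl | rfl)
      · exact Subgroup.one_mem _
      · exact Subgroup.mem_zpowers _
  have hFcard : Nat.card (Subgroup.zpowers a) = 2 := by
    rw [Nat.card_zpowers]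
    apply orderOf_eq_prime
    · rw [pow_two]; exact haa
    · exact ha1
  have hFH : Subgroup.zpowers a ≤ H := by
    rw [Subgroup.zpowers_le]; exact haH
  let Av : Set G := {x | x ∈ H ∧ HasE {a} τ x}
  have hAvF : ∀ x ∈ Av, ∀ f ∈ Subgroup.zpowers a, x * f ∈ Av := by
    rintro x ⟨hx, hE⟩ f hf
    refine ⟨H.mul_mem hx (hFH hf), ?_⟩
    rcases (hF f).1 hf with rfl | rfl
    · rw [mul_one]; exact hE
    · rcases hE with h1 | ⟨c, hc, h1⟩
      · rw [Set.mem_singleton_iff] at h1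
        right
        refine ⟨f, rfl, ?_⟩
        rw [mul_assoc, haa, mul_one, ← h1, mul_inv_cancel_left]
      · rw [Set.mem_singleton_iff] at hc
        subst hc
        left
        rw [h1, mul_inv_rev, inv_mul_cancel_right, ha']
        rfl
  have hmiss : {x | x ∈ H ∧ x ∉ Av} = {x | x ∈ H ∧ ¬ HasE {a} τ x} := by
    ext x
    constructor
    · rintro ⟨h1, h2⟩
      exact ⟨h1, fun h => h2 ⟨h1, h⟩⟩
    · rintro ⟨h1, h2⟩
      exact ⟨h1, fun h => h2 h.2⟩
  obtain ⟨m, γ, hM⟩ := match_set (F := Subgroup.zpowers a) (H := H) (B := B) (Av := Av) hFH hAvF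
    (by rw [hmiss, hFcard]; exact hcount) (by
      intro u hu
      obtain ⟨h1, h2⟩ := hB u hu
      refine ⟨(hF _).2 h2, ?_⟩
      intro f hf
      rcases (hF f).1 hf with rfl | rfl
      · simp [Subgroup.one_mem]
      · rw [mul_assoc, ← h1, inv_mul_cancel_left]
        exact hf)
  have hHL : H ≤ H ⊔ Subgroup.closure B := le_sup_left
  have hg1 : γ 1 ∈ H := by
    have := hM.gmem 1 (Subgroup.one_mem _)
    rwa [inv_one, one_mul] at this
  have hgH : ∀ x ∈ H, γ x = γ 1 := by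
    intro x hx
    have := hM.gcon 1 (Subgroup.one_mem _) x hx
    rwa [one_mul] at this
  have hstart : HInv A H (H ⊔ Subgroup.closure B) a τ m γ (H : Set G)
      (Equiv.mulLeft (γ 1) * τ * (Equiv.mulLeft (γ 1))⁻¹) := by
    refine ⟨H.one_mem, fun x hx => hHL hx, fun x hx k hk => H.mul_mem hx hk, ?_, ?_, ?_⟩
    · have := hτ.translate (γ 1)
      have e : {x | (γ 1)⁻¹ * x ∈ (H : Set G)} = (H : Set G) := by
        ext x
        exact Subgroup.mul_mem_cancel_left H (H.inv_mem hg1)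
      rwa [e] at this
    · intro Y _ _ x hx hE
      rw [hgH x hx] at hE
      exact HasE.translate hE
    · intro x hx _ hE
      rw [hgH x hx] at hE
      exact HasE.translate hE
  obtain ⟨σ, hσ⟩ := hub_aux hM hA hBA (fun u hu => (hB u hu).1) haa hF hFH hHL hτ
    (fun x hx => hx.2) _ _ _ hstart rfl
  refine ⟨σ, hσ.cyc, ?_⟩
  intro c hc hca
  have hsub : {x | x ∈ H ⊔ Subgroup.closure B ∧ ¬ HasE {c} σ x} ⊆
      {x | x ∈ H ⊔ Subgroup.closure B ∧ (γ x)⁻¹ * x ∈ {z | ¬ HasE {c} τ z}} := by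
    rintro x ⟨hx, h1⟩
    refine ⟨hx, fun h2 => h1 ?_⟩
    apply hσ.keep {c} _ _ x hx h2
    · intro y hy
      rw [Set.mem_singleton_iff] at hy
      rw [hy, hc]; rfl
    · intro h
      rw [Set.mem_singleton_iff] at h
      exact hca h.symm
  have h1 := Set.ncard_le_ncard hsub (Set.toFinite _)
  have h2 := coset_count hM hHL {z | ¬ HasE {c} τ z}
  exact (Nat.mul_le_mul_right _ h1).trans h2

/-- **Two hubs.** -/
theorem two_hubs [Finite G] {A : Set G} {H : Subgroup G} {a c : G} {τ : Equiv.Perm G}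
    {B B' : Set G} (hA : Sym A) (haH : a ∈ H) (haa : a * a = 1) (ha1 : a ≠ 1) (hcH : c ∈ H)
    (hcc : c * c = 1) (hc1 : c ≠ 1) (hac : a ≠ c) (hτ : CycOn A (H : Set G) τ)
    (hBA : B ⊆ A) (hB : ∀ u ∈ B, u * a = a * u ∧ (u * u = 1 ∨ u * u = a))
    (hcount : 3 * ({x | x ∈ H ∧ ¬ HasE {a} τ x}.ncard + 4) ≤ Nat.card H)
    (hBA' : B' ⊆ A) (hB' : ∀ u ∈ B', u * c = c * u ∧ (u * u = 1 ∨ u * u = c))
    (hcount' : 3 * ({x | x ∈ H ∧ ¬ HasE {c} τ x}.ncard + 4) ≤ Nat.card H) :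
    ∃ σ : Equiv.Perm G,
      CycOn A ((H ⊔ Subgroup.closure B ⊔ Subgroup.closure B' : Subgroup G) : Set G) σ := by
  obtain ⟨σ1, h1, h2⟩ := hub hA haH haa ha1 hτ hBA hB hcount
  have hHL : H ≤ H ⊔ Subgroup.closure B := le_sup_left
  have h4 := h2 c (inv_eq_of_mul_eq_one_left hcc) (fun h => hac h.symm)
  have h5 : 3 * ({x | x ∈ H ⊔ Subgroup.closure B ∧ ¬ HasE {c} σ1 x}.ncard + 4) ≤
      Nat.card (H ⊔ Subgroup.closure B : Subgroup G) := by
    have hpos : 0 < Nat.card H := Nat.card_pos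
    have hle : Nat.card H ≤ Nat.card (H ⊔ Subgroup.closure B : Subgroup G) :=
      Subgroup.card_le_of_le hHL
    by_contra hno
    push Not at hno
    have h6 := Nat.mul_lt_mul_of_pos_right hno hpos
    have h7 := Nat.mul_le_mul_right (Nat.card (H ⊔ Subgroup.closure B : Subgroup G)) hcount'
    nlinarith
  obtain ⟨σ2, h6, _⟩ := hub hA (hHL hcH) hcc hc1 h1 hBA' hB' h5
  exact ⟨σ2, h6⟩

end Pool.Agent.P8H49.Match
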