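import Pool.Agent.P8H49.HamStep

/-!
Matchings which link the cosets of a subgroup `H`.

`F ≤ H ≤ K` are subgroups, the left cosets of `F` are called slots. We look for a partial matching of
the slots of `K`, the slots `x F` and `x u F` being matched along `u ∈ B`, which connects the left
cosets of `H` in `K`; in each coset of `H` only certain slots are available, depending on a
translate which may be chosen.
-/

namespace Pool.Agent.P8H49.Match

open Finset Pool.Agent.R759.HC

attribute [local instance] Classical.propDecidable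

variable {G : Type*} [Group G]

/-- `m` is a matching of the slots of `K` which connects the cosets of `H`; `γ x` is an element of
`x H` which only depends on this coset, and all matched slots are available after translation by
`(γ x)⁻¹`. -/
structure MData (F H K : Subgroup G) (B Av : Set G) (m γ : G → G) : Prop where
  mem : ∀ x ∈ K, m x ∈ K
  typ : ∀ x ∈ K, m x = x ∨ ∃ u ∈ B, m x = x * u
  cong : ∀ x ∈ K, ∀ f ∈ F, (m x)⁻¹ * m (x * f) ∈ F
  invol : ∀ x ∈ K, (m (m x))⁻¹ * x ∈ F
  conn : ∀ U : Set G, (∀ x ∈ U, ∀ h ∈ H, x * h ∈ U) → (∀ x ∈ K, x ∈ U → m x ∈ U) →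
    ∀ x ∈ K, x ∈ U → ∀ y ∈ K, y ∈ U
  gmem : ∀ x ∈ K, x⁻¹ * γ x ∈ H
  gcon : ∀ x ∈ K, ∀ h ∈ H, γ (x * h) = γ x
  avail : ∀ x ∈ K, x⁻¹ * m x ∉ F → (γ x)⁻¹ * x ∈ Av

/-- the elements of the slots which are used or not available -/
def NB (F K : Subgroup G) (Av : Set G) (m γ : G → G) : Set G :=
  {x | x ∈ K ∧ (x⁻¹ * m x ∉ F ∨ (γ x)⁻¹ * x ∉ Av)}

theorem NB_right {F H K : Subgroup G} {B Av : Set G} {m γ : G → G} (h : MData F H K B Av m γ)
    (hFH : F ≤ H) (hHK : H ≤ K) (hAv : ∀ x ∈ Av, ∀ f ∈ F, x * f ∈ Av) {x : G}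
    (hx : x ∈ NB F K Av m γ) {f : G} (hf : f ∈ F) : x * f ∈ NB F K Av m γ := by
  obtain ⟨hxK, hx⟩ := hx
  refine ⟨K.mul_mem hxK (hHK (hFH hf)), ?_⟩
  rcases hx with hx | hx
  · left
    intro h1
    apply hx
    have h2 := h.cong x hxK f hf
    have h3 := F.mul_mem (F.mul_mem hf h1) (F.inv_mem h2)
    have e : f * ((x * f)⁻¹ * m (x * f)) * ((m x)⁻¹ * m (x * f))⁻¹ = x⁻¹ * m x := by group
    rwa [e] at h3
  · right
    intro h1
    apply hx
    rw [h.gcon x hxK f (hFH hf)] at h1
    have h2 := hAv _ h1 _ (F.inv_mem hf)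
    have e : (γ x)⁻¹ * (x * f) * f⁻¹ = (γ x)⁻¹ * x := by group
    rwa [e] at h2

/-- the identity matching of the slots of `H` -/
theorem mdata_base {F H : Subgroup G} {B Av : Set G} :
    MData F H H B Av (fun x => x) (fun x => if x ∈ H then 1 else x) := by
  refine ⟨fun x hx => hx, fun x _ => Or.inl rfl, ?_, ?_, ?_, ?_, ?_, ?_⟩
  · intro x _ f hf
    simpa using hf
  · intro x _
    simp
  · intro U hU _ x hx hxU y hy
    have := hU x hxU (x⁻¹ * y) (H.mul_mem (H.inv_mem hx) hy)
    rwa [mul_inv_cancel_left] at this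
  · intro x hx
    simp only [hx, if_true, mul_one]
    exact H.inv_mem hx
  · intro x hx h hh
    simp only [hx, if_true, H.mul_mem hx hh]
  · intro x _ h
    exfalso
    apply h
    simp

/-- a set closed under right multiplication by `S` is closed under right multiplication by the
group generated by `S` -/
theorem closed_closure [Finite G] {S U : Set G} (h : ∀ s ∈ S, ∀ x ∈ U, x * s ∈ U) :
    ∀ y ∈ Subgroup.closure S, ∀ x ∈ U, x * y ∈ U := by
  intro y hy
  induction hy using Subgroup.closure_induction with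
  | mem y hy => exact h y hy
  | one => intro x hx; simpa using hx
  | mul y z _ _ h1 h2 =>
    intro x hx
    rw [← mul_assoc]
    exact h2 _ (h1 x hx)
  | inv y _ h1 =>
    intro x hx
    have h2 : ∀ n : ℕ, x * y ^ n ∈ U := by
      intro n
      induction n with
      | zero => simpa using hx
      | succ n ih => rw [pow_succ, ← mul_assoc]; exact h1 _ ih
    obtain ⟨m, hm⟩ : ∃ m : ℕ, y ^ m = y⁻¹ := by
      have : y⁻¹ ∈ Subgroup.zpowers y := Subgroup.inv_mem _ (Subgroup.mem_zpowers y)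
      rw [← mem_powers_iff_mem_zpowers, Submonoid.mem_powers_iff] at this
      exact this
    rw [← hm]; exact h2 m

theorem closed_sup [Finite G] {K : Subgroup G} {u : G} {U : Set G}
    (h1 : ∀ x ∈ U, ∀ k ∈ K, x * k ∈ U) (h2 : ∀ x ∈ U, x * u ∈ U) :
    ∀ y ∈ K ⊔ Subgroup.zpowers u, ∀ x ∈ U, x * y ∈ U := by
  have e : K ⊔ Subgroup.zpowers u = Subgroup.closure ((K : Set G) ∪ {u}) := by
    rw [Subgroup.closure_union, Subgroup.closure_eq, Subgroup.zpowers_eq_closure]
  rw [e]
  apply closed_closure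
  rintro s (hs | hs) x hx
  · exact h1 x hx s hs
  · rw [Set.mem_singleton_iff] at hs
    rw [hs]; exact h2 x hx

theorem mstep [Finite G] {F H K : Subgroup G} {B Av : Set G} {m γ : G → G}
    (h : MData F H K B Av m γ) (hFH : F ≤ H) (hHK : H ≤ K)
    (hAv : ∀ x ∈ Av, ∀ f ∈ F, x * f ∈ Av) {miss : ℕ}
    (hc : (NB F K Av m γ).ncard * Nat.card H + 2 * Nat.card F * Nat.card H ≤
      (miss + 2 * Nat.card F) * Nat.card K)
    (h3 : 3 * (miss + 2 * Nat.card F) ≤ Nat.card H)
    {u : G} (huB : u ∈ B) (huu : u * u ∈ F) (huF : ∀ f ∈ F, u⁻¹ * f * u ∈ F) :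
    ∃ m' γ' : G → G, MData F H (K ⊔ Subgroup.zpowers u) B Av m' γ' ∧
      (NB F (K ⊔ Subgroup.zpowers u) Av m' γ').ncard * Nat.card H +
        2 * Nat.card F * Nat.card H ≤
      (miss + 2 * Nat.card F) * Nat.card (K ⊔ Subgroup.zpowers u : Subgroup G) := by
  set L := K ⊔ Subgroup.zpowers u with hL
  have hKL : K ≤ L := le_sup_left
  have huL : u ∈ L := (le_sup_right : _ ≤ K ⊔ Subgroup.zpowers u) (Subgroup.mem_zpowers u)
  have hFK : F ≤ K := hFH.trans hHK
  have : Fintype G := Fintype.ofFinite G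
  have : Fintype (L ⧸ K.subgroupOf L) := Fintype.ofFinite _
  let cls : G → L ⧸ K.subgroupOf L :=
    fun x => if hx : x ∈ L then QuotientGroup.mk ⟨x, hx⟩ else QuotientGroup.mk 1
  have cls_mem : ∀ x (hx : x ∈ L), cls x = QuotientGroup.mk ⟨x, hx⟩ := fun x hx => dif_pos hx
  have hcls : ∀ x ∈ L, ∀ y ∈ L, (cls x = cls y ↔ x⁻¹ * y ∈ K) := by
    intro x hx y hy
    rw [cls_mem x hx, cls_mem y hy, QuotientGroup.eq, Subgroup.mem_subgroupOf]
    rfl
  have clsK : ∀ x ∈ L, ∀ k ∈ K, cls (x * k) = cls x := by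
    intro x hx k hk
    rw [eq_comm, hcls x hx _ (L.mul_mem hx (hKL hk)), inv_mul_cancel_left]
    exact hk
  have clsS : ∀ v : L ⧸ K.subgroupOf L, ∃ x ∈ L, cls x = v := by
    intro v
    obtain ⟨⟨x, hx⟩, rfl⟩ := QuotientGroup.mk_surjective v
    exact ⟨x, hx, cls_mem x hx⟩
  have clsM : ∀ (g : L) (x : G), x ∈ L → g • cls x = cls (g * x) := by
    intro g x hx
    rw [cls_mem x hx, cls_mem _ (L.mul_mem g.2 hx)]
    rfl
  -- the graph on the cosets
  let Γ : SimpleGraph (L ⧸ K.subgroupOf L) :=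
    { Adj := fun v w => v ≠ w ∧ ∃ x ∈ L, cls x = v ∧ cls (x * u) = w
      symm := ⟨by
        rintro v w ⟨hne, x, hx, h1, h2⟩
        refine ⟨hne.symm, x * u, L.mul_mem hx huL, h2, ?_⟩
        rw [mul_assoc, clsK x hx _ (hFK huu)]
        exact h1⟩
      loopless := ⟨fun v h => h.1 rfl⟩ }
  have hconn : Γ.Connected := by
    have hne : Nonempty (L ⧸ K.subgroupOf L) := ⟨cls 1⟩
    have key : ∀ x ∈ L, Γ.Reachable (cls 1) (cls x) := by
      intro x hx
      have := closed_sup (K := K) (u := u) (U := {x | x ∈ L ∧ Γ.Reachable (cls 1) (cls x)}) (by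
          rintro x ⟨hx, h1⟩ k hk
          refine ⟨L.mul_mem hx (hKL hk), ?_⟩
          rw [clsK x hx k hk]; exact h1) (by
          rintro x ⟨hx, h1⟩
          refine ⟨L.mul_mem hx huL, ?_⟩
          by_cases he : cls x = cls (x * u)
          · rw [← he]; exact h1
          · exact h1.trans (SimpleGraph.Adj.reachable ⟨he, x, hx, rfl, rfl⟩)) x hx 1
        ⟨L.one_mem, SimpleGraph.Reachable.refl _⟩
      rw [one_mul] at this
      exact this.2
    refine SimpleGraph.Connected.mk ?_
    intro v w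
    obtain ⟨x, hx, rfl⟩ := clsS v
    obtain ⟨y, hy, rfl⟩ := clsS w
    exact (key x hx).symm.trans (key y hy)
  obtain ⟨T, hTΓ, hTree, hT3⟩ := tree3 (G := L) Γ hconn (by
      rintro g v w ⟨hne, x, hx, h1, h2⟩
      refine ⟨fun h => hne (MulAction.injective g h), g * x, L.mul_mem g.2 hx, ?_, ?_⟩
      · rw [← clsM g x hx, h1]
      · rw [mul_assoc, ← clsM g _ (L.mul_mem hx huL), h2])
    (fun x y => MulAction.exists_smul_eq L x y)
  -- a link for each edge of `T`
  have hlink : ∀ e ∈ T.edgeSet, ∃ x ∈ L, e = s(cls x, cls (x * u)) := by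
    intro e he
    induction e using Sym2.ind with
    | _ v w =>
      rw [SimpleGraph.mem_edgeSet] at he
      obtain ⟨_, x, hx, h1, h2⟩ := hTΓ he
      exact ⟨x, hx, by rw [h1, h2]⟩
  choose! xe hxeL hxe using hlink
  have hxeAdj : ∀ e ∈ T.edgeSet, T.Adj (cls (xe e)) (cls (xe e * u)) := by
    intro e he
    have := hxe e he
    rw [this] at he
    exact he
  let E : Set G := {y | ∃ e ∈ T.edgeSet, (xe e)⁻¹ * y ∈ F ∨ (xe e * u)⁻¹ * y ∈ F}
  have hEF : ∀ y ∈ E, ∀ f ∈ F, y * f ∈ E := by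
    rintro y ⟨e, he, h1 | h1⟩ f hf
    · refine ⟨e, he, Or.inl ?_⟩
      rw [← mul_assoc]; exact F.mul_mem h1 hf
    · refine ⟨e, he, Or.inr ?_⟩
      rw [← mul_assoc]; exact F.mul_mem h1 hf
  have hEL : ∀ y ∈ E, y ∈ L := by
    rintro y ⟨e, he, h1 | h1⟩
    · have := L.mul_mem (hxeL e he) (hKL (hFK h1))
      rwa [mul_inv_cancel_left] at this
    · have := L.mul_mem (L.mul_mem (hxeL e he) huL) (hKL (hFK h1))
      rwa [mul_inv_cancel_left] at this
  have hEu : ∀ y ∈ E, y * u ∈ E := by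
    rintro y ⟨e, he, h1 | h1⟩
    · refine ⟨e, he, Or.inr ?_⟩
      have := huF _ h1
      have e1 : u⁻¹ * ((xe e)⁻¹ * y) * u = (xe e * u)⁻¹ * (y * u) := by group
      rwa [e1] at this
    · refine ⟨e, he, Or.inl ?_⟩
      have := F.mul_mem huu (huF _ h1)
      have e1 : u * u * (u⁻¹ * ((xe e * u)⁻¹ * y) * u) = (xe e)⁻¹ * (y * u) := by group
      rwa [e1] at this
  -- the two ends of the link of `e`
  have hends : ∀ e ∈ T.edgeSet, ∀ y, ((xe e)⁻¹ * y ∈ F → cls y = cls (xe e) ∧
      cls (y * u) = cls (xe e * u)) ∧ ((xe e * u)⁻¹ * y ∈ F → cls y = cls (xe e * u) ∧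
      cls (y * u) = cls (xe e)) := by
    intro e he y
    have hx := hxeL e he
    constructor
    · intro h1
      have e1 : y = xe e * ((xe e)⁻¹ * y) := by group
      have e2 : y * u = xe e * u * (u⁻¹ * ((xe e)⁻¹ * y) * u) := by group
      refine ⟨?_, ?_⟩
      · rw [e1, clsK _ hx _ (hFK h1)]
      · rw [e2, clsK _ (L.mul_mem hx huL) _ (hFK (huF _ h1))]
    · intro h1
      have e1 : y = xe e * u * ((xe e * u)⁻¹ * y) := by group
      have e2 : y * u = xe e * (u * u * (u⁻¹ * ((xe e * u)⁻¹ * y) * u)) := by group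
      refine ⟨?_, ?_⟩
      · rw [e1, clsK _ (L.mul_mem hx huL) _ (hFK h1)]
      · rw [e2, clsK _ hx _ (hFK (F.mul_mem huu (huF _ h1)))]
  have hEAdj : ∀ y ∈ E, T.Adj (cls y) (cls (y * u)) := by
    rintro y ⟨e, he, h1 | h1⟩
    · obtain ⟨h2, h4⟩ := (hends e he y).1 h1
      rw [h2, h4]; exact hxeAdj e he
    · obtain ⟨h2, h4⟩ := (hends e he y).2 h1
      rw [h2, h4]; exact (hxeAdj e he).symm
  have hpt : ∀ v w, T.Adj v w → ∃ p ∈ E, cls p = v ∧ cls (p * u) = w ∧
      ∀ y ∈ E, cls y = v → cls (y * u) = w → p⁻¹ * y ∈ F := by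
    intro v w hvw
    have he : s(v, w) ∈ T.edgeSet := hvw
    have h1 := hxe _ he
    have hne : v ≠ w := hvw.ne
    have huniq : ∀ y ∈ E, cls y = v → cls (y * u) = w →
        (xe s(v, w))⁻¹ * y ∈ F ∨ (xe s(v, w) * u)⁻¹ * y ∈ F := by
      rintro y ⟨e, hey, h2⟩ hv hw
      have h4 : e = s(v, w) := by
        rw [hxe e hey]
        rcases h2 with h2 | h2
        · obtain ⟨h5, h6⟩ := (hends e hey y).1 h2
          rw [← h5, ← h6, hv, hw]
        · obtain ⟨h5, h6⟩ := (hends e hey y).2 h2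
          rw [← h5, ← h6, hv, hw]
          exact Sym2.eq_swap
      rw [h4] at h2; exact h2
    rw [Sym2.eq_iff] at h1
    have m1 : xe s(v, w) ∈ E := ⟨_, he, Or.inl (by simp [F.one_mem])⟩
    have m2 : xe s(v, w) * u ∈ E := ⟨_, he, Or.inr (by simp [F.one_mem])⟩
    rcases h1 with ⟨h1, h2⟩ | ⟨h1, h2⟩
    · refine ⟨xe s(v, w), m1, h1.symm, h2.symm, ?_⟩
      intro y hy hv hw
      rcases huniq y hy hv hw with h4 | h4
      · exact h4
      · exfalso
        obtain ⟨h5, _⟩ := (hends _ he y).2 h4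
        rw [hv, ← h2] at h5
        exact hne h5
    · refine ⟨xe s(v, w) * u, m2, h1.symm, ?_, ?_⟩
      · have := ((hends _ he (xe s(v, w) * u)).2 (by simp [F.one_mem])).2
        rw [this, ← h2]
      · intro y hy hv hw
        rcases huniq y hy hv hw with h4 | h4
        · exfalso
          obtain ⟨h5, _⟩ := (hends _ he y).1 h4
          rw [hv, ← h2] at h5
          exact hne h5
        · exact h4
  choose! pt hptE hptv hptw hptF using hpt
  -- the size of the set of bad elements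
  have hFpos : 0 < Nat.card F := Nat.card_pos
  have hHpos : 0 < Nat.card H := Nat.card_pos
  have hsmall : 3 * (NB F K Av m γ).ncard < Nat.card K := by
    by_contra hno
    push Not at hno
    have h1 : Nat.card K * Nat.card H ≤ 3 * (NB F K Av m γ).ncard * Nat.card H :=
      Nat.mul_le_mul_right _ hno
    have h2 : 3 * (miss + 2 * Nat.card F) * Nat.card K ≤ Nat.card H * Nat.card K :=
      Nat.mul_le_mul_right _ h3
    have h4 : 0 < Nat.card F * Nat.card H := Nat.mul_pos hFpos hHpos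
    nlinarith
  -- a good translate for each coset
  have hgood : ∀ v : L ⧸ K.subgroupOf L, ∃ g ∈ L, cls g = v ∧
      ∀ y ∈ E, cls y = v → g⁻¹ * y ∉ NB F K Av m γ := by
    intro v
    by_contra hno
    push Not at hno
    obtain ⟨x0, hx0, rfl⟩ := clsS v
    have hsub : (univ.filter fun g : G => g ∈ L ∧ cls g = cls x0) ⊆
        (univ.filter fun w => T.Adj (cls x0) w).biUnion
          (fun w => univ.filter fun g : G => g⁻¹ * pt (cls x0) w ∈ NB F K Av m γ) := by
      intro g hg
      rw [Finset.mem_filter] at hg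
      obtain ⟨y, hyE, hyv, hyN⟩ := hno g hg.2.1 hg.2.2
      have hadj : T.Adj (cls x0) (cls (y * u)) := hyv ▸ hEAdj y hyE
      rw [Finset.mem_biUnion]
      refine ⟨cls (y * u), by simp [hadj], ?_⟩
      rw [Finset.mem_filter]
      refine ⟨Finset.mem_univ _, ?_⟩
      have h1 := hptF _ _ hadj y hyE hyv rfl
      have h2 := NB_right h hFH hHK hAv hyN (F.inv_mem h1)
      have e1 : g⁻¹ * y * ((pt (cls x0) (cls (y * u)))⁻¹ * y)⁻¹ =
          g⁻¹ * pt (cls x0) (cls (y * u)) := by group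
      rwa [e1] at h2
    have hc1 : (univ.filter fun g : G => g ∈ L ∧ cls g = cls x0).card = Nat.card K := by
      rw [Nat.card_eq_fintype_card, ← Finset.card_univ]
      symm
      apply Finset.card_bij (fun (k : K) _ => x0 * k)
      · intro k _
        rw [Finset.mem_filter]
        exact ⟨Finset.mem_univ _, L.mul_mem hx0 (hKL k.2), clsK x0 hx0 _ k.2⟩
      · intro a _ b _ hab
        exact Subtype.ext (mul_left_cancel hab)
      · intro y hy
        rw [Finset.mem_filter] at hy
        have h1 : x0⁻¹ * y ∈ K := (hcls x0 hx0 y hy.2.1).1 hy.2.2.symm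
        exact ⟨⟨x0⁻¹ * y, h1⟩, Finset.mem_univ _, by simp⟩
    have hc2 : ∀ w, (univ.filter fun g : G => g⁻¹ * pt (cls x0) w ∈ NB F K Av m γ).card =
        (NB F K Av m γ).ncard := by
      intro w
      rw [Set.ncard_eq_toFinset_card']
      apply Finset.card_bij (fun g _ => g⁻¹ * pt (cls x0) w)
      · intro g hg
        rw [Finset.mem_filter] at hg
        rw [Set.mem_toFinset]
        exact hg.2
      · intro a _ b _ hab
        exact inv_injective (mul_right_cancel hab)
      · intro y hy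
        rw [Set.mem_toFinset] at hy
        refine ⟨pt (cls x0) w * y⁻¹, ?_, by group⟩
        rw [Finset.mem_filter]
        refine ⟨Finset.mem_univ _, ?_⟩
        have e1 : (pt (cls x0) w * y⁻¹)⁻¹ * pt (cls x0) w = y := by group
        rw [e1]; exact hy
    have h1 := (Finset.card_le_card hsub).trans Finset.card_biUnion_le
    rw [hc1, Finset.sum_congr rfl (fun w _ => hc2 w), Finset.sum_const, smul_eq_mul] at h1
    have h2 := hT3 (cls x0)
    unfold dg at h2
    have h4 := Nat.mul_le_mul_right (NB F K Av m γ).ncard h2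
    omega
  choose g hgL hgv hgE using hgood
  -- the new matching
  have hz : ∀ x ∈ L, (g (cls x))⁻¹ * x ∈ K := by
    intro x hx
    exact (hcls _ (hgL _) x hx).1 (hgv _)
  let m' : G → G := fun x => if x ∈ E then x * u else g (cls x) * m ((g (cls x))⁻¹ * x)
  let γ' : G → G := fun x => g (cls x) * γ ((g (cls x))⁻¹ * x)
  have hm1 : ∀ x, x ∈ E → m' x = x * u := fun x hx => if_pos hx
  have hm2 : ∀ x, x ∉ E → m' x = g (cls x) * m ((g (cls x))⁻¹ * x) := fun x hx => if_neg hx
  have hEF' : ∀ x, x ∉ E → ∀ f ∈ F, x * f ∉ E := by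
    intro x hx f hf h1
    apply hx
    have := hEF _ h1 _ (F.inv_mem hf)
    rwa [mul_inv_cancel_right] at this
  have hsame : ∀ x ∈ L, ∀ k ∈ K, cls (g (cls x) * k) = cls x := by
    intro x hx k hk
    rw [clsK _ (hgL _) k hk, hgv]
  refine ⟨m', γ', ⟨?_, ?_, ?_, ?_, ?_, ?_, ?_, ?_⟩, ?_⟩
  · intro x hx
    by_cases hxE : x ∈ E
    · rw [hm1 x hxE]; exact L.mul_mem hx huL
    · rw [hm2 x hxE]; exact L.mul_mem (hgL _) (hKL (h.mem _ (hz x hx)))
  · intro x hx
    by_cases hxE : x ∈ E
    · exact Or.inr ⟨u, huB, hm1 x hxE⟩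
    · rw [hm2 x hxE]
      rcases h.typ _ (hz x hx) with h1 | ⟨b, hb, h1⟩
      · left; rw [h1]; group
      · right; exact ⟨b, hb, by rw [h1]; group⟩
  · intro x hx f hf
    by_cases hxE : x ∈ E
    · rw [hm1 x hxE, hm1 _ (hEF x hxE f hf)]
      have := huF f hf
      have e1 : (x * u)⁻¹ * (x * f * u) = u⁻¹ * f * u := by group
      rwa [e1]
    · rw [hm2 x hxE, hm2 _ (hEF' x hxE f hf), clsK x hx f (hFK hf)]
      have := h.cong _ (hz x hx) f hf
      have e1 : (g (cls x) * m ((g (cls x))⁻¹ * x))⁻¹ * (g (cls x) * m ((g (cls x))⁻¹ * (x * f))) =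
          (m ((g (cls x))⁻¹ * x))⁻¹ * m ((g (cls x))⁻¹ * x * f) := by
        rw [mul_assoc (g (cls x))⁻¹ x f]; group
      rw [e1]; exact this
  · intro x hx
    by_cases hxE : x ∈ E
    · rw [hm1 x hxE, hm1 _ (hEu x hxE)]
      have := F.inv_mem huu
      have e1 : (x * u * u)⁻¹ * x = (u * u)⁻¹ := by group
      rwa [e1]
    · have hzK := hz x hx
      have hmK := h.mem _ hzK
      have h1 := h.invol _ hzK
      rw [hm2 x hxE]
      set z := (g (cls x))⁻¹ * x with hzdef
      have hyL : g (cls x) * m z ∈ L := L.mul_mem (hgL _) (hKL hmK)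
      have hycls : cls (g (cls x) * m z) = cls x := hsame x hx _ hmK
      have hyE : g (cls x) * m z ∉ E := by
        intro hyE
        have h2 := hgE (cls x) _ hyE hycls
        rw [inv_mul_cancel_left] at h2
        have h4 : (m z)⁻¹ * m (m z) ∈ F := by
          by_contra h5
          exact h2 ⟨hmK, Or.inl h5⟩
        have h5 := F.mul_mem h4 h1
        have e1 : (m z)⁻¹ * m (m z) * ((m (m z))⁻¹ * z) = (m z)⁻¹ * z := by group
        rw [e1] at h5
        have h6 := hEF _ hyE _ h5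
        have e2 : g (cls x) * m z * ((m z)⁻¹ * z) = x := by rw [hzdef]; group
        rw [e2] at h6
        exact hxE h6
      rw [hm2 _ hyE, hycls, inv_mul_cancel_left]
      have e1 : (g (cls x) * m (m z))⁻¹ * x = (m (m z))⁻¹ * z := by rw [hzdef]; group
      rw [e1]; exact h1
  · intro U hU hUm x hx hxU y hy
    -- whole cosets of `K`
    have stepa : ∀ x ∈ L, x ∈ U → ∀ y ∈ L, cls y = cls x → y ∈ U := by
      intro x hx hxU y hy hyx
      have h1 := h.conn {z | g (cls x) * z ∈ U} (by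
          intro z hz1 k hk
          have := hU _ hz1 k hk
          rwa [mul_assoc] at this) (by
          intro z hzK hz1
          have hz1' : g (cls x) * z ∈ U := hz1
          by_cases hzE : g (cls x) * z ∈ E
          · have h2 := hgE (cls x) _ hzE (hsame x hx z hzK)
            rw [inv_mul_cancel_left] at h2
            have h4 : z⁻¹ * m z ∈ F := by
              by_contra h5
              exact h2 ⟨hzK, Or.inl h5⟩
            have h5 := hU _ hz1' _ (hFH h4)
            have e1 : g (cls x) * z * (z⁻¹ * m z) = g (cls x) * m z := by group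
            rw [e1] at h5
            exact h5
          · have h2 := hUm _ (L.mul_mem (hgL _) (hKL hzK)) hz1'
            rw [hm2 _ hzE, hsame x hx z hzK, inv_mul_cancel_left] at h2
            exact h2) _ (hz x hx) (by
          change g (cls x) * ((g (cls x))⁻¹ * x) ∈ U
          rw [mul_inv_cancel_left]; exact hxU) _ (hz y hy)
      have h2 : g (cls x) * ((g (cls y))⁻¹ * y) ∈ U := h1
      rw [hyx, mul_inv_cancel_left] at h2
      exact h2
    have stepb : ∀ v w, T.Adj v w → (∀ y ∈ L, cls y = v → y ∈ U) → ∀ y ∈ L, cls y = w → y ∈ U := by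
      intro v w hvw hv y hy hyw
      have hp := hptE v w hvw
      have h1 := hv _ (hEL _ hp) (hptv v w hvw)
      have h2 := hUm _ (hEL _ hp) h1
      rw [hm1 _ hp] at h2
      exact stepa _ (hEL _ (hEu _ hp)) h2 y hy (by rw [hyw, hptw v w hvw])
    obtain ⟨p⟩ := hTree.connected.preconnected (cls x) (cls y)
    have stepc : ∀ v w : L ⧸ K.subgroupOf L, T.Walk v w → (∀ y ∈ L, cls y = v → y ∈ U) →
        ∀ y ∈ L, cls y = w → y ∈ U := by
      intro v w p
      induction p with
      | nil => exact fun h => h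
      | cons hadj _ ih => exact fun h => ih (stepb _ _ hadj h)
    exact stepc _ _ p (fun y hy hyx => stepa x hx hxU y hy hyx) y hy rfl
  · intro x hx
    have := h.gmem _ (hz x hx)
    have e1 : x⁻¹ * (g (cls x) * γ ((g (cls x))⁻¹ * x)) =
        ((g (cls x))⁻¹ * x)⁻¹ * γ ((g (cls x))⁻¹ * x) := by group
    change x⁻¹ * (g (cls x) * γ ((g (cls x))⁻¹ * x)) ∈ H
    rw [e1]; exact this
  · intro x hx k hk
    change g (cls (x * k)) * γ ((g (cls (x * k)))⁻¹ * (x * k)) = g (cls x) * γ ((g (cls x))⁻¹ * x)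
    rw [clsK x hx k (hHK hk), ← mul_assoc (g (cls x))⁻¹ x k, h.gcon _ (hz x hx) k hk]
  · intro x hx h1
    change (g (cls x) * γ ((g (cls x))⁻¹ * x))⁻¹ * x ∈ Av
    have e1 : (g (cls x) * γ ((g (cls x))⁻¹ * x))⁻¹ * x =
        (γ ((g (cls x))⁻¹ * x))⁻¹ * ((g (cls x))⁻¹ * x) := by group
    rw [e1]
    by_cases hxE : x ∈ E
    · have h2 := hgE (cls x) x hxE rfl
      by_contra h4
      exact h2 ⟨hz x hx, Or.inr h4⟩
    · apply h.avail _ (hz x hx)
      rw [hm2 x hxE] at h1
      have e2 : x⁻¹ * (g (cls x) * m ((g (cls x))⁻¹ * x)) =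
          ((g (cls x))⁻¹ * x)⁻¹ * m ((g (cls x))⁻¹ * x) := by group
      rwa [e2] at h1
  · -- the count
    have hVK : Nat.card L = Nat.card (L ⧸ K.subgroupOf L) * Nat.card K := by
      rw [Subgroup.card_eq_card_quotient_mul_card_subgroup (K.subgroupOf L)]
      congr 1
      exact Nat.card_congr (Subgroup.subgroupOfEquivOfLe hKL).toEquiv
    have hedge : Nat.card T.edgeSet + 1 = Nat.card (L ⧸ K.subgroupOf L) :=
      (SimpleGraph.isTree_iff_connected_and_card.1 hTree).2
    have hEcard : E.ncard ≤ Nat.card T.edgeSet * Nat.card F * 2 := by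
      let φ : T.edgeSet × F × Bool → G := fun t =>
        if t.2.2 = true then xe t.1 * t.2.1 else xe t.1 * u * t.2.1
      have hsub : E ⊆ Set.range φ := by
        rintro y ⟨e, he, h1 | h1⟩
        · refine ⟨(⟨e, he⟩, ⟨_, h1⟩, true), ?_⟩
          simp [φ]
        · refine ⟨(⟨e, he⟩, ⟨_, h1⟩, false), ?_⟩
          simp only [φ, Bool.false_eq_true, if_false]
          group
      have h1 := Set.ncard_le_ncard hsub (Set.toFinite _)
      have h2 : (Set.range φ).ncard ≤ Nat.card (T.edgeSet × F × Bool) := by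
        rw [← Nat.card_coe_set_eq]
        exact Finite.card_range_le φ
      rw [Nat.card_prod, Nat.card_prod] at h2
      have h4 : Nat.card Bool = 2 := by simp
      rw [h4] at h2
      rw [mul_assoc]
      exact h1.trans h2
    have hRest : {x | x ∈ L ∧ (g (cls x))⁻¹ * x ∈ NB F K Av m γ}.ncard ≤
        Nat.card (L ⧸ K.subgroupOf L) * (NB F K Av m γ).ncard := by
      rw [← Nat.card_coe_set_eq, ← Nat.card_coe_set_eq, ← Nat.card_prod]
      apply Nat.card_le_card_of_injective
        (fun x : {x | x ∈ L ∧ (g (cls x))⁻¹ * x ∈ NB F K Av m γ} =>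
          ((cls x, ⟨_, x.2.2⟩) : (L ⧸ K.subgroupOf L) × (NB F K Av m γ)))
      intro x y hxy
      have h1 := congrArg Prod.fst hxy
      have h2 := congrArg (fun t => (t.2 : G)) hxy
      simp only at h1 h2
      rw [h1] at h2
      exact Subtype.ext (mul_left_cancel h2)
    have hNB' : NB F L Av m' γ' ⊆ E ∪ {x | x ∈ L ∧ (g (cls x))⁻¹ * x ∈ NB F K Av m γ} := by
      rintro x ⟨hxL, hx⟩
      by_cases hxE : x ∈ E
      · exact Or.inl hxE
      · right
        refine ⟨hxL, hz x hxL, ?_⟩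
        rcases hx with hx | hx
        · left
          rw [hm2 x hxE] at hx
          have e2 : x⁻¹ * (g (cls x) * m ((g (cls x))⁻¹ * x)) =
              ((g (cls x))⁻¹ * x)⁻¹ * m ((g (cls x))⁻¹ * x) := by group
          rwa [e2] at hx
        · right
          have e1 : (g (cls x) * γ ((g (cls x))⁻¹ * x))⁻¹ * x =
              (γ ((g (cls x))⁻¹ * x))⁻¹ * ((g (cls x))⁻¹ * x) := by group
          change (g (cls x) * γ ((g (cls x))⁻¹ * x))⁻¹ * x ∉ Av at hx
          rwa [e1] at hx
    have hcount := (Set.ncard_le_ncard hNB' (Set.toFinite _)).trans (Set.ncard_union_le _ _)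
    have htot : (NB F L Av m' γ').ncard + 2 * Nat.card F ≤
        Nat.card (L ⧸ K.subgroupOf L) * ((NB F K Av m γ).ncard + 2 * Nat.card F) := by
      have h1 : Nat.card T.edgeSet * Nat.card F * 2 + 2 * Nat.card F =
          Nat.card (L ⧸ K.subgroupOf L) * (2 * Nat.card F) := by
        rw [← hedge]; ring
      have h2 : Nat.card (L ⧸ K.subgroupOf L) * ((NB F K Av m γ).ncard + 2 * Nat.card F) =
          Nat.card (L ⧸ K.subgroupOf L) * (NB F K Av m γ).ncard +
          Nat.card (L ⧸ K.subgroupOf L) * (2 * Nat.card F) := by ring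
      omega
    have h5 := Nat.mul_le_mul_right (Nat.card H) htot
    have h6 := Nat.mul_le_mul_left (Nat.card (L ⧸ K.subgroupOf L)) hc
    rw [hVK]
    nlinarith

end Pool.Agent.P8H49.Match
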